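import Pool.Agent.Helper41.DOS.Base

/-!
# Block DOS-A1: the trace map matrices are products of transfer matrices

Proof. `al = (√5-1)/2`, `al^2 + al = 1`, `0.618 < al < 0.6181`, `al` irrational.
(1) `pot_eq`: `indicator (Ico (1-al) 1) 1 (fract x) = ⌊x + al⌋ - ⌊x⌋` (if `fract x < 1 - al` the two
floors are equal, otherwise they differ by one); so `pot l ω n = l * (⌊(n+1) al + ω⌋ - ⌊n al + ω⌋)`.
(2) `fib (K+1) * al = fib K - (-al)^(K+1)` (induction).
(3) for `4 ≤ K` and `1 ≤ n ≤ fib K + 1`: `⌊(n + fib (K+1)) al⌋ = ⌊n al⌋ + fib K`. It is enough that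
`|n al - m| > al^(K+1)` for all integers `m` (then adding `-(-al)^(K+1)` does not change the floor).
With `ph = 1 + al` (so `al * ph = 1`): `(m - n al) (m + n ph) = m^2 + m n - n^2` is an integer, not zero
(`(2m+n)^2 = 5 n^2` is impossible, irrationality of `√5`), so it is at least one in absolute value. If
`|m - n al| ≤ al^(K+1)` then `|m + n ph| ≤ n √5 + al^(K+1)`, and `fib K * √5 ≤ ph^K + al^K` (Binet), so
`1 ≤ al^(K+1) (ph^K + al^K + √5 + al^(K+1)) = al + al^(2K+1) + √5 al^(K+1) + al^(2K+2)`, which is at most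
`al + al^9 + √5 al^5 + al^10 < 1` for `K ≥ 4`. Contradiction.
(4) so `pot l 0 (n + fib (K+1)) = pot l 0 n` for `4 ≤ K`, `1 ≤ n ≤ fib K`.
(5) base `K = 4, 5`: the values `pot l 0 n`, `n = 1..5`, are `l, 0, l, l, 0` (floors of `n al`, `n ≤ 6`), and
`MM 4 = T(l) T(0) T(l)`, `MM 5 = T(0) T(l) T(l) T(0) T(l)` with `T(v) = !![E - v, -1; 1, 0]`
(compare entries). Step: `Pm V E (fib (K+1) + fib K) = (product over the sites fib (K+1) + 1 ..) * Pm V E (fib (K+1))`
and the first factor is `Pm V E (fib K)` by (4).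
-/

namespace DOS

open FIB MeasureTheory Set Filter Topology

theorem al_sq : al ^ 2 + al = 1 := by
  unfold al
  have h : (√5 : ℝ) ^ 2 = 5 := Real.sq_sqrt (by norm_num)
  nlinarith

theorem sqrt5_bd : (2.236 : ℝ) < √5 ∧ (√5 : ℝ) < 2.2362 := by
  constructor
  · rw [Real.lt_sqrt (by norm_num)]; norm_num
  · rw [Real.sqrt_lt' (by norm_num)]; norm_num

theorem al_bd : (0.618 : ℝ) < al ∧ al < 0.6181 := by
  unfold al
  obtain ⟨h1, h2⟩ := sqrt5_bd
  constructor <;> linarith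

theorem al_pos : 0 < al := by
  linarith [al_bd.1]

theorem al_lt_one : al < 1 := by
  linarith [al_bd.2]

theorem pot_eq (l ω : ℝ) (n : ℤ) :
    pot l ω n = l * ((⌊((n : ℝ) + 1) * al + ω⌋ : ℝ) - (⌊(n : ℝ) * al + ω⌋ : ℝ)) := by
  unfold pot
  congr 1
  set x : ℝ := (n : ℝ) * al + ω with hx
  have e : ((n : ℝ) + 1) * al + ω = x + al := by rw [hx]; ring
  rw [e]
  have h0 := Int.floor_add_fract x
  have h1 := Int.fract_nonneg x
  have h2 := Int.fract_lt_one x
  have a0 := al_pos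
  have a1 := al_lt_one
  by_cases hc : 1 - al ≤ Int.fract x
  · have hf : ⌊x + al⌋ = ⌊x⌋ + 1 := by
      rw [Int.floor_eq_iff]
      push_cast
      constructor <;> linarith
    rw [hf, Set.indicator_of_mem (show Int.fract x ∈ Set.Ico (1 - al) 1 from ⟨hc, h2⟩)]
    push_cast
    ring
  · have hf : ⌊x + al⌋ = ⌊x⌋ := by
      rw [Int.floor_eq_iff]
      push Not at hc
      constructor <;> linarith
    rw [hf, Set.indicator_of_notMem (fun h => hc h.1)]
    ring

theorem fib_mul_al (K : ℕ) :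
    (Nat.fib (K + 1) : ℝ) * al = (Nat.fib K : ℝ) - (-al) ^ (K + 1) := by
  have h := al_sq
  have key : (Nat.fib (K + 1) : ℝ) * al = (Nat.fib K : ℝ) - (-al) ^ (K + 1) ∧
      (Nat.fib (K + 2) : ℝ) * al = (Nat.fib (K + 1) : ℝ) - (-al) ^ (K + 2) := by
    induction K with
    | zero =>
      constructor
      · simp
      · have e : Nat.fib (0 + 2) = 1 := rfl
        have e' : Nat.fib (0 + 1) = 1 := rfl
        rw [e, e']
        push_cast
        nlinarith
    | succ K ih =>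
      refine ⟨ih.2, ?_⟩
      have e : Nat.fib (K + 1 + 2) = Nat.fib (K + 1) + Nat.fib (K + 2) := Nat.fib_add_two
      have e2 : Nat.fib (K + 1 + 1) = Nat.fib K + Nat.fib (K + 1) := Nat.fib_add_two
      rw [e]
      push_cast
      have p1 : (-al) ^ (K + 1 + 2) = (-al) ^ (K + 1) * (1 - al) := by
        rw [pow_add]
        congr 1
        linarith [h]
      have p2 : (-al) ^ (K + 2) = (-al) ^ (K + 1) * (-al) := by rw [← pow_succ]
      rw [p1, add_mul, ih.1, ih.2, p2, e2]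
      push_cast
      ring
  exact key.1

theorem binet (K : ℕ) :
    (Nat.fib K : ℝ) * √5 = (1 + al) ^ K - (-al) ^ K := by
  have h := al_sq
  have h5 : √5 = 1 + 2 * al := by unfold al; ring
  have key : (Nat.fib K : ℝ) * √5 = (1 + al) ^ K - (-al) ^ K ∧
      (Nat.fib (K + 1) : ℝ) * √5 = (1 + al) ^ (K + 1) - (-al) ^ (K + 1) := by
    induction K with
    | zero =>
      constructor
      · simp
      · rw [h5]
        simp
        ring
    | succ K ih =>
      refine ⟨ih.2, ?_⟩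
      have e : Nat.fib (K + 1 + 1) = Nat.fib K + Nat.fib (K + 1) := Nat.fib_add_two
      rw [e]
      push_cast
      have p1 : (-al) ^ (K + 1 + 1) = (-al) ^ K * (1 - al) := by
        rw [show K + 1 + 1 = K + 2 from rfl, pow_add]
        congr 1
        linarith [h]
      have p2 : (1 + al) ^ (K + 1 + 1) = (1 + al) ^ K * (2 + al) := by
        rw [show K + 1 + 1 = K + 2 from rfl, pow_add]
        congr 1
        nlinarith [h]
      rw [add_mul, ih.1, ih.2, p1, p2, pow_succ, pow_succ]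
      ring
  exact key.1

theorem norm_form_ne (m n : ℤ) (hn : n ≠ 0) : m ^ 2 + m * n - n ^ 2 ≠ 0 := by
  intro h0
  have hirr : Irrational (√5) := by
    have := Nat.prime_five.irrational_sqrt
    exact_mod_cast this
  have hR : ((m : ℝ) ^ 2 + m * n - n ^ 2) = 0 := by exact_mod_cast h0
  have hs : (√5 : ℝ) ^ 2 = 5 := Real.sq_sqrt (by norm_num)
  have hn' : (n : ℝ) ≠ 0 := by exact_mod_cast hn
  have hprod : (2 * (m : ℝ) + n - n * √5) * (2 * (m : ℝ) + n + n * √5) = 0 := by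
    have : (2 * (m : ℝ) + n - n * √5) * (2 * (m : ℝ) + n + n * √5) =
        4 * ((m : ℝ) ^ 2 + m * n - n ^ 2) + n ^ 2 * (5 - (√5) ^ 2) := by ring
    rw [this, hR, hs]; ring
  rcases mul_eq_zero.1 hprod with h | h
  · apply hirr
    refine ⟨(2 * (m : ℚ) + n) / n, ?_⟩
    push_cast
    rw [div_eq_iff hn']
    linarith
  · apply hirr
    refine ⟨-((2 * (m : ℚ) + n) / n), ?_⟩
    push_cast
    rw [← neg_div, div_eq_iff hn']
    linarith

theorem dist_al (K : ℕ) (hK : 4 ≤ K) (n : ℕ) (h1 : 1 ≤ n) (h2 : n ≤ Nat.fib K + 1) (m : ℤ) :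
    al ^ (K + 1) < |(n : ℝ) * al - m| := by
  by_contra hcon
  push Not at hcon
  have a0 := al_pos
  have a1 := al_lt_one
  obtain ⟨b1, b2⟩ := al_bd
  obtain ⟨s1, s2⟩ := sqrt5_bd
  have hsq := al_sq
  have h5 : √5 = 1 + 2 * al := by unfold al; ring
  set d : ℝ := al ^ (K + 1) with hd
  have hd0 : 0 < d := by positivity
  have hd5 : d ≤ 0.0904 := by
    have e1 : d ≤ al ^ 5 := by
      rw [hd]
      exact pow_le_pow_of_le_one a0.le a1.le (by omega)
    have e2 : al ^ 5 ≤ (0.6181 : ℝ) ^ 5 := pow_le_pow_left₀ a0.le b2.le 5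
    have e3 : (0.6181 : ℝ) ^ 5 ≤ 0.0904 := by norm_num
    linarith
  have hne : m ^ 2 + m * (n : ℤ) - (n : ℤ) ^ 2 ≠ 0 :=
    norm_form_ne m n (by exact_mod_cast (by omega : n ≠ 0))
  have hge : 1 ≤ |((m : ℝ) ^ 2 + m * n - n ^ 2)| := by
    have : 1 ≤ |m ^ 2 + m * (n : ℤ) - (n : ℤ) ^ 2| := Int.one_le_abs hne
    have h' : (1 : ℝ) ≤ ((|m ^ 2 + m * (n : ℤ) - (n : ℤ) ^ 2| : ℤ) : ℝ) := by exact_mod_cast this
    rw [Int.cast_abs] at h'
    push_cast at h'
    exact h'
  have hfac : ((m : ℝ) ^ 2 + m * n - n ^ 2) = (m - n * al) * (m + n * (1 + al)) := by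
    have : (m - n * al) * ((m : ℝ) + n * (1 + al)) =
        (m : ℝ) ^ 2 + m * n - n ^ 2 * (al ^ 2 + al) := by ring
    rw [this, hsq]; ring
  rw [hfac, abs_mul] at hge
  have hx : |(m : ℝ) - n * al| ≤ d := by rw [abs_sub_comm]; exact hcon
  have hn0 : (0 : ℝ) ≤ n := Nat.cast_nonneg n
  have hy : |(m : ℝ) + n * (1 + al)| ≤ d + n * √5 := by
    have e : (m : ℝ) + n * (1 + al) = (m - n * al) + n * √5 := by rw [h5]; ring
    rw [e]
    refine (abs_add_le _ _).trans ?_
    rw [abs_of_nonneg (by positivity : 0 ≤ (n : ℝ) * √5)]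
    linarith
  have hn2 : (n : ℝ) ≤ Nat.fib K + 1 := by exact_mod_cast h2
  have hbin := binet K
  have hneg : -(-al) ^ K ≤ al ^ K := by
    have : |(-al) ^ K| = al ^ K := by rw [abs_pow, abs_neg, abs_of_pos a0]
    have h3 := neg_abs_le ((-al) ^ K)
    linarith
  have hprod : al ^ K * (1 + al) ^ K = 1 := by
    rw [← mul_pow]
    have : al * (1 + al) = 1 := by linarith [hsq]
    rw [this, one_pow]
  have hK1 : d = al * al ^ K := by rw [hd, pow_succ]; ring
  have hKd : d * al ^ K ≤ d * 1 := by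
    refine mul_le_mul_of_nonneg_left ?_ hd0.le
    exact pow_le_one₀ a0.le a1.le
  have hK4 : al ^ K ≤ 0.146 := by
    have e1 : al ^ K ≤ al ^ 4 := pow_le_pow_of_le_one a0.le a1.le hK
    have e2 : al ^ 4 ≤ (0.6181 : ℝ) ^ 4 := pow_le_pow_left₀ a0.le b2.le 4
    have e3 : (0.6181 : ℝ) ^ 4 ≤ 0.146 := by norm_num
    linarith
  have hKp : 0 < al ^ K := by positivity
  have hmain : |(m : ℝ) - n * al| * |(m : ℝ) + n * (1 + al)| ≤ d * (d + n * √5) :=
    mul_le_mul hx hy (abs_nonneg _) hd0.le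
  have hfib : d * ((Nat.fib K : ℝ) * √5) ≤ al + d * al ^ K := by
    rw [hbin]
    have : d * ((1 + al) ^ K - (-al) ^ K) = al * (al ^ K * (1 + al) ^ K) + d * (-(-al) ^ K) := by
      rw [hK1]; ring
    rw [this, hprod]
    have := mul_le_mul_of_nonneg_left hneg hd0.le
    linarith
  have hns : d * (n * √5) ≤ d * ((Nat.fib K : ℝ) * √5) + d * √5 := by
    have : d * (n * √5) ≤ d * (((Nat.fib K : ℝ) + 1) * √5) := by
      refine mul_le_mul_of_nonneg_left ?_ hd0.le
      exact mul_le_mul_of_nonneg_right hn2 (by positivity)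
    linarith
  have q1 : d * al ^ K ≤ 0.0904 * 0.146 := mul_le_mul hd5 hK4 hKp.le (by norm_num)
  have q2 : d * √5 ≤ 0.0904 * 2.2362 := mul_le_mul hd5 s2.le (by positivity) (by norm_num)
  have q3 : d * d ≤ 0.0904 * 0.0904 := mul_le_mul hd5 hd5 hd0.le (by norm_num)
  nlinarith

theorem floor_shift (K : ℕ) (hK : 4 ≤ K) (n : ℕ) (h1 : 1 ≤ n) (h2 : n ≤ Nat.fib K + 1) :
    ⌊((n : ℝ) + Nat.fib (K + 1)) * al⌋ = ⌊(n : ℝ) * al⌋ + Nat.fib K := by
  have hd1 := dist_al K hK n h1 h2 ⌊(n : ℝ) * al⌋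
  have hd2 := dist_al K hK n h1 h2 (⌊(n : ℝ) * al⌋ + 1)
  have hf1 := Int.floor_le ((n : ℝ) * al)
  have hf2 := Int.lt_floor_add_one ((n : ℝ) * al)
  rw [abs_of_nonneg (by linarith)] at hd1
  push_cast at hd2
  rw [abs_of_nonpos (by linarith)] at hd2
  have hab : |(-al) ^ (K + 1)| = al ^ (K + 1) := by rw [abs_pow, abs_neg, abs_of_pos al_pos]
  have h3 := neg_abs_le ((-al) ^ (K + 1))
  have h4 := le_abs_self ((-al) ^ (K + 1))
  rw [hab] at h3 h4
  rw [Int.floor_eq_iff, add_mul, fib_mul_al]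
  push_cast
  constructor <;> linarith

theorem pot_shift (K : ℕ) (hK : 4 ≤ K) (l : ℝ) (n : ℕ) (h1 : 1 ≤ n) (h2 : n ≤ Nat.fib K) :
    pot l 0 ((n + Nat.fib (K + 1) : ℕ) : ℤ) = pot l 0 (n : ℤ) := by
  rw [pot_eq, pot_eq]
  have e1 := floor_shift K hK n h1 (by omega)
  have e2 := floor_shift K hK (n + 1) (by omega) (by omega)
  push_cast at e2 ⊢
  rw [add_zero, add_zero, add_zero, add_zero]
  rw [show (n : ℝ) + Nat.fib (K + 1) + 1 = n + 1 + Nat.fib (K + 1) by ring, e1, e2]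
  push_cast
  ring

theorem Pm_add {R : Type} [CommRing R] (V : ℕ → R) (E : R) (N M : ℕ) :
    Pm V E (N + M) = Pm (fun n => V (n + M)) E N * Pm V E M := by
  induction N with
  | zero => simp [Pm]
  | succ N ih =>
    rw [show N + 1 + M = (N + M) + 1 by ring, Pm, ih, Pm, Matrix.mul_assoc]
    rw [show N + M + 1 = N + 1 + M by ring]

theorem Pm_congr {R : Type} [CommRing R] (V W : ℕ → R) (E : R) (N : ℕ)
    (h : ∀ n, 1 ≤ n → n ≤ N → V n = W n) : Pm V E N = Pm W E N := by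
  induction N with
  | zero => rfl
  | succ N ih =>
    rw [Pm, Pm, ih (fun n h1 h2 => h n h1 (by omega)), h (N + 1) (by omega) le_rfl]

theorem pot_small (l : ℝ) : pot l 0 1 = l ∧ pot l 0 2 = 0 ∧ pot l 0 3 = l ∧ pot l 0 4 = l ∧
    pot l 0 5 = 0 := by
  obtain ⟨b1, b2⟩ := al_bd
  have f1 : ⌊al⌋ = 0 := by rw [Int.floor_eq_iff]; push_cast; constructor <;> linarith
  have f2 : ⌊2 * al⌋ = 1 := by rw [Int.floor_eq_iff]; push_cast; constructor <;> linarith
  have f3 : ⌊3 * al⌋ = 1 := by rw [Int.floor_eq_iff]; push_cast; constructor <;> linarith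
  have f4 : ⌊4 * al⌋ = 2 := by rw [Int.floor_eq_iff]; push_cast; constructor <;> linarith
  have f5 : ⌊5 * al⌋ = 3 := by rw [Int.floor_eq_iff]; push_cast; constructor <;> linarith
  have f6 : ⌊6 * al⌋ = 3 := by rw [Int.floor_eq_iff]; push_cast; constructor <;> linarith
  refine ⟨?_, ?_, ?_, ?_, ?_⟩
  · rw [pot_eq]; push_cast
    rw [show ((1 : ℝ) + 1) = 2 by norm_num, one_mul, add_zero, add_zero, f1, f2]; push_cast; ring
  · rw [pot_eq]; push_cast
    rw [show ((2 : ℝ) + 1) = 3 by norm_num, add_zero, add_zero, f2, f3]; push_cast; ring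
  · rw [pot_eq]; push_cast
    rw [show ((3 : ℝ) + 1) = 4 by norm_num, add_zero, add_zero, f3, f4]; push_cast; ring
  · rw [pot_eq]; push_cast
    rw [show ((4 : ℝ) + 1) = 5 by norm_num, add_zero, add_zero, f4, f5]; push_cast; ring
  · rw [pot_eq]; push_cast
    rw [show ((5 : ℝ) + 1) = 6 by norm_num, add_zero, add_zero, f5, f6]; push_cast; ring

theorem MM_eq_Pm (K : ℕ) (hK : 4 ≤ K) (E l : ℝ) :
    MM K E l = Pm (fun n => pot l 0 (n : ℤ)) E (Nat.fib K) := by
  obtain ⟨p1, p2, p3, p4, p5⟩ := pot_small l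
  have hm2 : MM 2 E l = !![E - l, -1; 1, 0] := by
    rw [MM, MM, MM]
    ext i j
    fin_cases i <;> fin_cases j <;>
      simp
    ring
  have hm1 : MM 1 E l = !![E - 0, -1; 1, 0] := by rw [MM, sub_zero]
  obtain ⟨j, rfl⟩ : ∃ j, K = j + 4 := ⟨K - 4, by omega⟩
  clear hK
  have key : MM (j + 4) E l = Pm (fun n => pot l 0 (n : ℤ)) E (Nat.fib (j + 4)) ∧
      MM (j + 5) E l = Pm (fun n => pot l 0 (n : ℤ)) E (Nat.fib (j + 5)) := by
    induction j with
    | zero =>
      constructor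
      · rw [show Nat.fib (0 + 4) = 3 from rfl]
        simp only [Pm, Nat.cast_add, Nat.cast_one, Nat.cast_zero, Nat.cast_ofNat]
        norm_num only
        rw [p1, p2, p3, Matrix.mul_one]
        rw [show MM 4 E l = MM 2 E l * (MM 1 E l * MM 2 E l) from rfl, hm1, hm2, sub_zero]
      · rw [show Nat.fib (0 + 5) = 5 from rfl]
        simp only [Pm, Nat.cast_add, Nat.cast_one, Nat.cast_zero, Nat.cast_ofNat]
        norm_num only
        rw [p1, p2, p3, p4, p5, Matrix.mul_one]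
        rw [show MM 5 E l = (MM 1 E l * MM 2 E l) * (MM 2 E l * (MM 1 E l * MM 2 E l)) from rfl,
          hm1, hm2, sub_zero, Matrix.mul_assoc]
    | succ j ih =>
      refine ⟨ih.2, ?_⟩
      have e : Nat.fib (j + 1 + 5) = Nat.fib (j + 4) + Nat.fib (j + 5) := Nat.fib_add_two
      rw [e, Pm_add]
      rw [show MM (j + 1 + 5) E l = MM (j + 4) E l * MM (j + 5) E l from rfl, ih.1, ih.2]
      congr 1
      refine (Pm_congr _ _ _ _ (fun n h1 h2 => ?_)).symm
      exact pot_shift (j + 4) (by omega) l n h1 h2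
  exact key.1

end DOS
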