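import Pool.Agent.Helper41.DOS.Trace
import Pool.Agent.Helper41.DOS.Word

/-!
# Block DOS-A3: periodic approximants

Proof. (1) sup bound: `|V| ≤ C` and `|u| ≤ B` imply `|(Lz V)^[k] u n| ≤ (2 + C)^k B` (induction).
(2) translation: `(Lz V)^[k] (Pi.single n 1) n = (Lz (fun m => V (m + n)))^[k] (Pi.single 0 1) 0`, and
`pot l 0 (m + n) = pot l (n al) m`; so `(Lz (pot l 0))^[k] (Pi.single n 1) n = Gk l k (n al)`.
(3) for `k + 1 ≤ n`, `n + k + 1 ≤ N` the potentials `V` and `pot l 0` agree on `[n-k, n+k]`, so by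
`Lz_local` the terms are equal. There are at most `2 k + 2` other `n`, each with both terms bounded by
`(2 + |l|)^k`.
-/

namespace DOS

open FIB MeasureTheory Set Filter Topology

theorem Lz_bound (V : ℤ → ℝ) (C B : ℝ) (hC : 0 ≤ C) (hV : ∀ n, |V n| ≤ C) (k : ℕ) (u : ℤ → ℝ)
    (hu : ∀ n, |u n| ≤ B) (n : ℤ) : |((Lz V)^[k] u) n| ≤ (2 + C) ^ k * B := by
  induction k generalizing n with
  | zero => simpa using hu n
  | succ k ih =>
    rw [Function.iterate_succ_apply', Lz_apply]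
    have h1 := ih (n + 1)
    have h2 := ih (n - 1)
    have h3 := ih n
    have h4 := hV n
    have hp : 0 ≤ (2 + C) ^ k * B := le_trans (abs_nonneg _) h3
    have h5 : |V n * ((Lz V)^[k] u) n| ≤ C * ((2 + C) ^ k * B) := by
      rw [abs_mul]
      exact mul_le_mul h4 h3 (abs_nonneg _) hC
    calc |((Lz V)^[k] u) (n + 1) + ((Lz V)^[k] u) (n - 1) + V n * ((Lz V)^[k] u) n|
        ≤ |((Lz V)^[k] u) (n + 1) + ((Lz V)^[k] u) (n - 1)| + |V n * ((Lz V)^[k] u) n| :=
          abs_add_le _ _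
      _ ≤ |((Lz V)^[k] u) (n + 1)| + |((Lz V)^[k] u) (n - 1)| + |V n * ((Lz V)^[k] u) n| := by
          gcongr
          exact abs_add_le _ _
      _ ≤ (2 + C) ^ k * B + (2 + C) ^ k * B + C * ((2 + C) ^ k * B) := by
          gcongr
      _ = (2 + C) ^ (k + 1) * B := by ring

theorem pot_abs (l ω : ℝ) (n : ℤ) : |pot l ω n| ≤ |l| := by
  unfold pot
  rw [abs_mul]
  have h : |Set.indicator (Set.Ico (1 - al) 1) (fun _ => (1 : ℝ)) (Int.fract ((n : ℝ) * al + ω))|
      ≤ 1 := by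
    unfold Set.indicator
    split_ifs <;> simp
  calc |l| * |Set.indicator (Set.Ico (1 - al) 1) (fun _ => (1 : ℝ))
        (Int.fract ((n : ℝ) * al + ω))| ≤ |l| * 1 :=
        mul_le_mul_of_nonneg_left h (abs_nonneg _)
    _ = |l| := mul_one _

theorem single_abs (n m : ℤ) : |(Pi.single n (1 : ℝ) : ℤ → ℝ) m| ≤ 1 := by
  by_cases h : m = n
  · subst h
    simp
  · rw [Pi.single_eq_of_ne h]
    simp

theorem Gk_bound (l : ℝ) (k : ℕ) (ω : ℝ) : |Gk l k ω| ≤ (2 + |l|) ^ k := by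
  unfold Gk
  rw [Hf_eq_Lz]
  have h := Lz_bound (pot l ω) |l| 1 (abs_nonneg _) (pot_abs l ω) k (Pi.single 0 1)
    (single_abs 0) 0
  simpa using h

theorem Lz_translate (V : ℤ → ℝ) (u : ℤ → ℝ) (n : ℤ) (k : ℕ) (m : ℤ) :
    ((Lz V)^[k] u) (m + n) = ((Lz (fun j => V (j + n)))^[k] (fun j => u (j + n))) m := by
  induction k generalizing m with
  | zero => rfl
  | succ k ih =>
    rw [Function.iterate_succ_apply', Function.iterate_succ_apply', Lz_apply, Lz_apply]
    rw [← ih (m + 1), ← ih (m - 1), ← ih m]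
    have e1 : m + n + 1 = m + 1 + n := by ring
    have e2 : m + n - 1 = m - 1 + n := by ring
    rw [e1, e2]

theorem Gk_shift (l : ℝ) (k : ℕ) (n : ℤ) :
    ((Lz (pot l 0))^[k] (Pi.single n 1)) n = Gk l k ((n : ℝ) * al) := by
  have h := Lz_translate (pot l 0) (Pi.single n 1) n k 0
  rw [zero_add] at h
  rw [h]
  unfold Gk
  rw [Hf_eq_Lz]
  have hV : (fun j : ℤ => pot l 0 (j + n)) = pot l ((n : ℝ) * al) := by
    funext j
    unfold pot
    have : (((j + n : ℤ) : ℝ)) * al + 0 = (j : ℝ) * al + (n : ℝ) * al := by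
      push_cast
      ring
    rw [this]
  have hu : (fun j : ℤ => (Pi.single n (1 : ℝ) : ℤ → ℝ) (j + n)) = Pi.single 0 1 := by
    funext j
    by_cases hj : j = 0
    · subst hj
      simp
    · rw [Pi.single_eq_of_ne hj, Pi.single_eq_of_ne]
      intro h'
      exact hj (by linarith)
  rw [hV, hu]

theorem approx (l : ℝ) (k N : ℕ) (V : ℤ → ℝ) (hV : ∀ n : ℤ, |V n| ≤ |l|)
    (hVN : ∀ n : ℤ, 1 ≤ n → n ≤ N → V n = pot l 0 n) :
    |∑ i : Fin N, ((Lz V)^[k] (Pi.single ((i : ℕ) : ℤ) 1)) ((i : ℕ) : ℤ) -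
      ∑ n ∈ Finset.range N, Gk l k ((n : ℝ) * al)| ≤ (2 * k + 2) * (2 * (2 + |l|) ^ k) := by
  have hsum : ∑ i : Fin N, ((Lz V)^[k] (Pi.single ((i : ℕ) : ℤ) 1)) ((i : ℕ) : ℤ) =
      ∑ n ∈ Finset.range N, ((Lz V)^[k] (Pi.single (n : ℤ) 1)) (n : ℤ) :=
    Fin.sum_univ_eq_sum_range (fun n : ℕ => ((Lz V)^[k] (Pi.single (n : ℤ) 1)) (n : ℤ)) N
  rw [hsum, ← Finset.sum_sub_distrib]
  set M : ℝ := (2 + |l|) ^ k with hM
  have hM0 : 0 ≤ M := by positivity
  set bad : Finset ℕ := (Finset.range N).filter (fun n => n ≤ k ∨ N < n + k) with hbad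
  have hterm : ∀ n ∈ Finset.range N,
      |((Lz V)^[k] (Pi.single (n : ℤ) 1)) (n : ℤ) - Gk l k ((n : ℝ) * al)| ≤
        if (n ≤ k ∨ N < n + k) then 2 * M else 0 := by
    intro n _
    split_ifs with h
    · have h1 := Lz_bound V |l| 1 (abs_nonneg _) hV k (Pi.single (n : ℤ) 1) (single_abs _) n
      have h2 := Gk_bound l k ((n : ℝ) * al)
      rw [mul_one] at h1
      calc |((Lz V)^[k] (Pi.single (n : ℤ) 1)) (n : ℤ) - Gk l k ((n : ℝ) * al)|
          ≤ |((Lz V)^[k] (Pi.single (n : ℤ) 1)) (n : ℤ)| + |Gk l k ((n : ℝ) * al)| := abs_sub _ _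
        _ ≤ M + M := add_le_add h1 h2
        _ = 2 * M := by ring
    · push Not at h
      obtain ⟨h1, h2⟩ := h
      have hloc := Lz_local V (pot l 0) k (n : ℤ) (Pi.single (n : ℤ) 1) (Pi.single (n : ℤ) 1)
        (fun m hm1 hm2 => hVN m (by omega) (by omega)) (fun m _ _ => rfl)
      have hs := Gk_shift l k (n : ℤ)
      rw [hloc, hs]
      simp
  calc |∑ n ∈ Finset.range N, (((Lz V)^[k] (Pi.single (n : ℤ) 1)) (n : ℤ) -
          Gk l k ((n : ℝ) * al))|
      ≤ ∑ n ∈ Finset.range N, |((Lz V)^[k] (Pi.single (n : ℤ) 1)) (n : ℤ) -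
          Gk l k ((n : ℝ) * al)| := Finset.abs_sum_le_sum_abs _ _
    _ ≤ ∑ n ∈ Finset.range N, (if (n ≤ k ∨ N < n + k) then 2 * M else 0) :=
        Finset.sum_le_sum hterm
    _ = (bad.card : ℝ) * (2 * M) := by
        rw [← Finset.sum_filter, Finset.sum_const, nsmul_eq_mul]
    _ ≤ (2 * k + 2) * (2 * M) := by
        apply mul_le_mul_of_nonneg_right _ (by positivity)
        have hsub : bad ⊆ Finset.range (k + 1) ∪ Finset.Ico (N - k) N := by
          intro n hn
          rw [hbad, Finset.mem_filter, Finset.mem_range] at hn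
          rw [Finset.mem_union, Finset.mem_range, Finset.mem_Ico]
          omega
        have hc : bad.card ≤ 2 * k + 2 := by
          calc bad.card ≤ (Finset.range (k + 1) ∪ Finset.Ico (N - k) N).card :=
                Finset.card_le_card hsub
            _ ≤ (Finset.range (k + 1)).card + (Finset.Ico (N - k) N).card :=
                Finset.card_union_le _ _
            _ ≤ 2 * k + 2 := by
                rw [Finset.card_range, Nat.card_Ico]
                omega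
        exact_mod_cast hc

end DOS
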