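import Pool.Agent.Helper75.FIB.Defs

/-!
# DOS : common definitions for the density of states module (MP_d7d3f3_mp)

Only auxiliary definitions for the proofs; the definitions of the hand-in (potential, moments,
trace polynomials) are in `Helper75/FIB/Defs.lean`.
-/

namespace DOS

open FIB MeasureTheory Set Filter Topology

noncomputable section

/-- The Schrödinger operator with potential `V`, acting on arbitrary two-sided sequences. -/
def Lz {R : Type} [CommRing R] (V : ℤ → R) : (ℤ → R) →ₗ[R] (ℤ → R) where
  toFun u n := u (n + 1) + u (n - 1) + V n * u n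
  map_add' u w := by
    funext n
    simp only [Pi.add_apply]
    ring
  map_smul' c u := by
    funext n
    simp only [Pi.smul_apply, smul_eq_mul, RingHom.id_apply]
    ring

theorem Lz_apply {R : Type} [CommRing R] (V : ℤ → R) (u : ℤ → R) (n : ℤ) :
    Lz V u n = u (n + 1) + u (n - 1) + V n * u n := rfl

theorem Hf_eq_Lz (l ω : ℝ) : Hf l ω = Lz (pot l ω) := rfl

/-- Product of the transfer matrices of the sites `1, ..., N`. -/
def Pm {R : Type} [CommRing R] (V : ℕ → R) (E : R) : ℕ → Matrix (Fin 2) (Fin 2) R
  | 0 => 1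
  | n + 1 => !![E - V (n + 1), -1; 1, 0] * Pm V E n

/-- The moment integrand: number of weighted closed walks of length `k` at `0`. -/
def Gk (l : ℝ) (k : ℕ) (ω : ℝ) : ℝ := ((Hf l ω)^[k] (Pi.single 0 1)) 0

theorem mom_eq (l : ℝ) (k : ℕ) : mom l k = ∫ ω in (0 : ℝ)..1, Gk l k ω := rfl

/-- Operator on functions on an additive group `G`: sum over the neighbours plus a potential. -/
def LG {G : Type} [AddCommGroup G] (S : Finset G) (V : G → ℝ) (u : G → ℝ) : G → ℝ :=
  fun x => ∑ s ∈ S, u (x + s) + V x * u x

/-- The Hilbert space of square summable complex functions on `G`. -/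
abbrev l2 (G : Type) : Type := lp (fun _ : G => ℂ) 2

/-- `T` is the bounded operator with neighbours `S` and potential `V`. -/
def IsOp {G : Type} [AddCommGroup G] (S : Finset G) (V : G → ℝ) (T : l2 G →L[ℂ] l2 G) : Prop :=
  ∀ (ψ : l2 G) (x : G), (T ψ : G → ℂ) x = ∑ s ∈ S, ψ (x + s) + ((V x : ℝ) : ℂ) * ψ x

end

end DOS
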