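import Mathlib

/-!
# Block DOS-B3: averaged spectral measures (abstract)

`H` is a complex Hilbert space. Write `Φ g ω = re ⟪δ, g(T ω) δ⟫`, where `g(T)` is the continuous
functional calculus; for self-adjoint `T` it is `cfc g T` over `ℝ` (`cfc_real_eq_complex`).

Proofs. (a) For a polynomial `p`, `p(T) = aeval T p` (`cfc_polynomial`), so `Φ p ω = ∑ coeff * re ⟪δ, T^k δ⟫`.
The spectrum is in `[-R, R]` (`spectrum.norm_le_norm_of_mem`), so if `|g - p| ≤ ε` on `[-R, R]` then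
`‖g(T) - p(T)‖ ≤ ε` (`cfc_sub`, `norm_cfc_le`) and `|Φ g ω - Φ p ω| ≤ ε ‖δ‖^2`. Weierstrass:
`exists_polynomial_near_of_continuousOn`. So `Φ g` is a pointwise limit of measurable functions
(`measurable_of_tendsto_metrizable`); also `|Φ g ω| ≤ ‖δ‖^2 sup |g|`.
(b) `integral_calc`: both sides are within `ε` of the same expression for the polynomial `p`.
(c) `exists_dos`: Riesz-Markov on the compact space `X = Icc (-R) R` (`RealRMK.rieszMeasure`,
`RealRMK.integral_rieszMeasure`) for `Λ g = ∫ Φ (IccExtend g)` (positive: `cfc` of a nonnegative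
function is nonnegative, so `Φ ≥ 0`), then push forward to `ℝ`; `Λ 1 = ‖δ‖^2 = 1`; `Λ (x^k)` is the moment.
-/

namespace DOS

open MeasureTheory Set Filter Topology

/-- `re ⟪δ, g(T) δ⟫` -/
noncomputable def Ph {H : Type} [NormedAddCommGroup H] [InnerProductSpace ℂ H] [CompleteSpace H]
    (δ : H) (g : ℝ → ℝ) (T : H →L[ℂ] H) : ℝ :=
  (inner ℂ δ ((cfc (fun z : ℂ => ((g z.re : ℝ) : ℂ)) T) δ)).re

section aux

variable {H : Type} [NormedAddCommGroup H] [InnerProductSpace ℂ H] [CompleteSpace H]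

theorem Ph_eq (δ : H) (g : ℝ → ℝ) (T : H →L[ℂ] H) (hT : IsSelfAdjoint T) :
    Ph δ g T = (inner ℂ δ ((cfc g T) δ)).re := by
  unfold Ph
  rw [cfc_real_eq_complex g hT]

theorem mem_Icc_of_spec (T : H →L[ℂ] H) (R : ℝ) (hR : ‖T‖ ≤ R) {x : ℝ} (hx : x ∈ spectrum ℝ T) :
    x ∈ Icc (-R) R := by
  have h1 := spectrum.norm_le_norm_mul_of_mem hx
  have h2 : ‖(1 : H →L[ℂ] H)‖ ≤ 1 := ContinuousLinearMap.norm_id_le
  have h3 : ‖x‖ ≤ R := by
    calc ‖x‖ ≤ ‖T‖ * ‖(1 : H →L[ℂ] H)‖ := h1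
      _ ≤ ‖T‖ * 1 := by gcongr
      _ ≤ R := by rw [mul_one]; exact hR
  rw [Real.norm_eq_abs] at h3
  exact abs_le.mp h3

theorem Ph_congr (δ : H) (g g' : ℝ → ℝ) (T : H →L[ℂ] H) (hT : IsSelfAdjoint T) (R : ℝ)
    (hR : ‖T‖ ≤ R) (h : ∀ x ∈ Icc (-R) R, g x = g' x) : Ph δ g T = Ph δ g' T := by
  rw [Ph_eq δ g T hT, Ph_eq δ g' T hT]
  congr 3
  exact cfc_congr fun x hx => h x (mem_Icc_of_spec T R hR hx)

theorem Ph_add (δ : H) (g g' : ℝ → ℝ) (hg : Continuous g) (hg' : Continuous g')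
    (T : H →L[ℂ] H) (hT : IsSelfAdjoint T) :
    Ph δ (fun x => g x + g' x) T = Ph δ g T + Ph δ g' T := by
  rw [Ph_eq δ _ T hT, Ph_eq δ g T hT, Ph_eq δ g' T hT,
    cfc_add (a := T) g g' hg.continuousOn hg'.continuousOn]
  simp

theorem Ph_sub (δ : H) (g g' : ℝ → ℝ) (hg : Continuous g) (hg' : Continuous g')
    (T : H →L[ℂ] H) (hT : IsSelfAdjoint T) :
    Ph δ (fun x => g x - g' x) T = Ph δ g T - Ph δ g' T := by
  rw [Ph_eq δ _ T hT, Ph_eq δ g T hT, Ph_eq δ g' T hT,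
    cfc_sub (a := T) g g' hg.continuousOn hg'.continuousOn]
  simp

theorem Ph_smul (δ : H) (c : ℝ) (g : ℝ → ℝ) (hg : Continuous g)
    (T : H →L[ℂ] H) (hT : IsSelfAdjoint T) :
    Ph δ (fun x => c * g x) T = c * Ph δ g T := by
  rw [Ph_eq δ _ T hT, Ph_eq δ g T hT, cfc_const_mul c g T hg.continuousOn]
  rw [smul_apply, inner_smul_right_eq_smul]
  simp

theorem Ph_pow {H : Type} [NormedAddCommGroup H] [InnerProductSpace ℂ H] [CompleteSpace H]
    (δ : H) (k : ℕ) (T : H →L[ℂ] H) (hT : IsSelfAdjoint T) :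
    Ph δ (fun x => x ^ k) T = (inner ℂ δ ((T ^ k) δ)).re := by
  rw [Ph_eq δ _ T hT, cfc_pow_id T k hT]

theorem Ph_bound {H : Type} [NormedAddCommGroup H] [InnerProductSpace ℂ H] [CompleteSpace H]
    (δ : H) (g : ℝ → ℝ) (hg : Continuous g) (T : H →L[ℂ] H) (hT : IsSelfAdjoint T) (R B : ℝ)
    (hR : ‖T‖ ≤ R) (hB : 0 ≤ B) (hgB : ∀ x ∈ Icc (-R) R, |g x| ≤ B) : |Ph δ g T| ≤ B * ‖δ‖ ^ 2 := by
  rw [Ph_eq δ _ T hT]
  have h1 : ‖cfc g T‖ ≤ B := norm_cfc_le hB fun x hx => hgB x (mem_Icc_of_spec T R hR hx)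
  calc |(inner ℂ δ ((cfc g T) δ)).re| ≤ ‖inner ℂ δ ((cfc g T) δ)‖ := Complex.abs_re_le_norm _
    _ ≤ ‖δ‖ * ‖(cfc g T) δ‖ := norm_inner_le_norm _ _
    _ ≤ ‖δ‖ * (‖cfc g T‖ * ‖δ‖) := by gcongr; exact ContinuousLinearMap.le_opNorm _ _
    _ ≤ ‖δ‖ * (B * ‖δ‖) := by gcongr
    _ = B * ‖δ‖ ^ 2 := by ring

theorem Ph_nonneg (δ : H) (g : ℝ → ℝ) (T : H →L[ℂ] H) (hT : IsSelfAdjoint T) (R : ℝ)
    (hR : ‖T‖ ≤ R) (h : ∀ x ∈ Icc (-R) R, 0 ≤ g x) : 0 ≤ Ph δ g T := by
  rw [Ph_eq δ g T hT]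
  have h1 : 0 ≤ cfc g T := cfc_nonneg fun x hx => h x (mem_Icc_of_spec T R hR hx)
  rw [ContinuousLinearMap.nonneg_iff_isPositive] at h1
  exact h1.re_inner_nonneg_right δ

theorem Ph_poly (δ : H) (p : Polynomial ℝ) (T : H →L[ℂ] H) (hT : IsSelfAdjoint T) :
    Ph δ (fun x => p.eval x) T
      = ∑ i ∈ Finset.range (p.natDegree + 1), p.coeff i * (inner ℂ δ ((T ^ i) δ)).re := by
  rw [Ph_eq δ _ T hT]
  have h1 : cfc (fun x => p.eval x) T = Polynomial.aeval T p := cfc_polynomial p T hT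
  rw [h1, Polynomial.aeval_eq_sum_range]
  rw [sum_apply, inner_sum, Complex.re_sum]
  refine Finset.sum_congr rfl fun i _ => ?_
  rw [smul_apply, inner_smul_right_eq_smul]
  simp

/-- approximating polynomials on `[-R, R]` -/
theorem exists_approx (g : ℝ → ℝ) (hg : Continuous g) (R : ℝ) :
    ∃ p : ℕ → Polynomial ℝ, ∀ n, ∀ x ∈ Icc (-R) R, |(p n).eval x - g x| < 1 / ((n : ℝ) + 1) := by
  have h : ∀ n : ℕ, ∃ p : Polynomial ℝ, ∀ x ∈ Icc (-R) R, |p.eval x - g x| < 1 / ((n : ℝ) + 1) :=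
    fun n => exists_polynomial_near_of_continuousOn (-R) R g hg.continuousOn _ (by positivity)
  choose p hp using h
  exact ⟨p, hp⟩

theorem Ph_approx (δ : H) (g : ℝ → ℝ) (hg : Continuous g) (T : H →L[ℂ] H) (hT : IsSelfAdjoint T)
    (R : ℝ) (hR : ‖T‖ ≤ R) (p : ℕ → Polynomial ℝ)
    (hp : ∀ n, ∀ x ∈ Icc (-R) R, |(p n).eval x - g x| < 1 / ((n : ℝ) + 1)) :
    Tendsto (fun n => Ph δ (fun x => (p n).eval x) T) atTop (𝓝 (Ph δ g T)) := by
  rw [tendsto_iff_norm_sub_tendsto_zero]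
  have h1 : Tendsto (fun n : ℕ => 1 / ((n : ℝ) + 1) * ‖δ‖ ^ 2) atTop (𝓝 0) := by
    simpa using tendsto_one_div_add_atTop_nhds_zero_nat.mul_const (‖δ‖ ^ 2)
  refine squeeze_zero (fun n => norm_nonneg _) (fun n => ?_) h1
  rw [Real.norm_eq_abs, ← Ph_sub δ _ g (p n).continuous hg T hT]
  exact Ph_bound δ _ ((p n).continuous.sub hg) T hT R _ hR (by positivity)
    fun x hx => (hp n x hx).le

variable {Ω : Type} [MeasurableSpace Ω]

theorem Ph_meas {H : Type} [NormedAddCommGroup H] [InnerProductSpace ℂ H] [CompleteSpace H]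
    {Ω : Type} [MeasurableSpace Ω] (δ : H) (T : Ω → (H →L[ℂ] H)) (hT : ∀ ω, IsSelfAdjoint (T ω))
    (R : ℝ) (hR : ∀ ω, ‖T ω‖ ≤ R) (hm : ∀ k : ℕ, Measurable fun ω => (inner ℂ δ ((T ω ^ k) δ)).re)
    (g : ℝ → ℝ) (hg : Continuous g) : Measurable fun ω => Ph δ g (T ω) := by
  obtain ⟨p, hp⟩ := exists_approx g hg R
  refine measurable_of_tendsto_metrizable (f := fun n ω => Ph δ (fun x => (p n).eval x) (T ω)) ?_ ?_
  · intro n
    simp only [Ph_poly δ (p n) _ (hT _)]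
    exact Finset.measurable_sum _ fun i _ => (hm i).const_mul _
  · rw [tendsto_pi_nhds]
    intro ω
    exact Ph_approx δ g hg (T ω) (hT ω) R (hR ω) p hp

/-- a continuous function is bounded on `[-R, R]` -/
theorem exists_bd (g : ℝ → ℝ) (hg : Continuous g) (R : ℝ) :
    ∃ B : ℝ, 0 ≤ B ∧ ∀ x ∈ Icc (-R) R, |g x| ≤ B := by
  obtain ⟨B, hB⟩ := (isCompact_Icc (a := -R) (b := R)).exists_bound_of_continuousOn hg.continuousOn
  exact ⟨max B 0, le_max_right _ _, fun x hx => (hB x hx).trans (le_max_left _ _)⟩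

theorem Ph_integrable (P : Measure Ω) [IsProbabilityMeasure P]
    (δ : H) (T : Ω → (H →L[ℂ] H)) (hT : ∀ ω, IsSelfAdjoint (T ω))
    (R : ℝ) (hR : ∀ ω, ‖T ω‖ ≤ R) (hm : ∀ k : ℕ, Measurable fun ω => (inner ℂ δ ((T ω ^ k) δ)).re)
    (g : ℝ → ℝ) (hg : Continuous g) : Integrable (fun ω => Ph δ g (T ω)) P := by
  obtain ⟨B, hB0, hB⟩ := exists_bd g hg R
  exact Integrable.of_bound (Ph_meas δ T hT R hR hm g hg).aestronglyMeasurable (B * ‖δ‖ ^ 2)
    (Eventually.of_forall fun ω => Ph_bound δ g hg (T ω) (hT ω) R B (hR ω) hB0 hB)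

theorem nu_integrable (ν : Measure ℝ) [IsProbabilityMeasure ν] (R : ℝ)
    (hsupp : ν (Icc (-R) R)ᶜ = 0) (g : ℝ → ℝ) (hg : Continuous g) : Integrable g ν := by
  obtain ⟨B, hB0, hB⟩ := exists_bd g hg R
  refine Integrable.of_bound hg.aestronglyMeasurable B ?_
  have : ∀ᵐ x ∂ν, x ∈ Icc (-R) R := hsupp
  filter_upwards [this] with x hx
  exact hB x hx

theorem integral_calc {H : Type} [NormedAddCommGroup H] [InnerProductSpace ℂ H] [CompleteSpace H]
    {Ω : Type} [MeasurableSpace Ω] (P : Measure Ω) [IsProbabilityMeasure P]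
    (δ : H) (hδ : ‖δ‖ = 1) (T : Ω → (H →L[ℂ] H)) (hT : ∀ ω, IsSelfAdjoint (T ω))
    (R : ℝ) (hR : ∀ ω, ‖T ω‖ ≤ R) (hm : ∀ k : ℕ, Measurable fun ω => (inner ℂ δ ((T ω ^ k) δ)).re)
    (ν : Measure ℝ) [IsProbabilityMeasure ν] (hsupp : ν (Icc (-R) R)ᶜ = 0)
    (hmom : ∀ k : ℕ, ∫ x, x ^ k ∂ν = ∫ ω, (inner ℂ δ ((T ω ^ k) δ)).re ∂P)
    (g : ℝ → ℝ) (hg : Continuous g) :
    Integrable g ν ∧ Integrable (fun ω => Ph δ g (T ω)) P ∧
      ∫ x, g x ∂ν = ∫ ω, Ph δ g (T ω) ∂P := by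
  refine ⟨nu_integrable ν R hsupp g hg, Ph_integrable P δ T hT R hR hm g hg, ?_⟩
  obtain ⟨p, hp⟩ := exists_approx g hg R
  obtain ⟨B, hB0, hB⟩ := exists_bd g hg R
  have hpB : ∀ n, ∀ x ∈ Icc (-R) R, |(p n).eval x| ≤ B + 1 := by
    intro n x hx
    have h1 := hp n x hx
    have h2 : 1 / ((n : ℝ) + 1) ≤ 1 := by
      rw [div_le_one (by positivity)]
      have : (0 : ℝ) ≤ n := Nat.cast_nonneg n
      linarith
    have h3 := hB x hx
    calc |(p n).eval x| = |((p n).eval x - g x) + g x| := by ring_nf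
      _ ≤ |(p n).eval x - g x| + |g x| := abs_add_le _ _
      _ ≤ B + 1 := by linarith
  have hae : ∀ᵐ x ∂ν, x ∈ Icc (-R) R := hsupp
  -- convergence on both sides
  have hl : Tendsto (fun n => ∫ x, (p n).eval x ∂ν) atTop (𝓝 (∫ x, g x ∂ν)) := by
    refine tendsto_integral_of_dominated_convergence (fun _ => B + 1)
      (fun n => (p n).continuous.aestronglyMeasurable) (integrable_const _) (fun n => ?_) ?_
    · filter_upwards [hae] with x hx
      exact hpB n x hx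
    · filter_upwards [hae] with x hx
      rw [tendsto_iff_norm_sub_tendsto_zero]
      exact squeeze_zero (fun n => norm_nonneg _) (fun n => (hp n x hx).le)
        tendsto_one_div_add_atTop_nhds_zero_nat
  have hr : Tendsto (fun n => ∫ ω, Ph δ (fun x => (p n).eval x) (T ω) ∂P) atTop
      (𝓝 (∫ ω, Ph δ g (T ω) ∂P)) := by
    refine tendsto_integral_of_dominated_convergence (fun _ => (B + 1) * ‖δ‖ ^ 2)
      (fun n => (Ph_meas δ T hT R hR hm _ (p n).continuous).aestronglyMeasurable)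
      (integrable_const _) (fun n => ?_) ?_
    · exact Eventually.of_forall fun ω =>
        Ph_bound δ _ (p n).continuous (T ω) (hT ω) R (B + 1) (hR ω) (by linarith) (hpB n)
    · exact Eventually.of_forall fun ω => Ph_approx δ g hg (T ω) (hT ω) R (hR ω) p hp
  have heq : ∀ n, ∫ x, (p n).eval x ∂ν = ∫ ω, Ph δ (fun x => (p n).eval x) (T ω) ∂P := by
    intro n
    simp only [Ph_poly δ (p n) _ (hT _)]
    simp only [Polynomial.eval_eq_sum_range]
    rw [integral_finsetSum _ fun i _ => ?_, integral_finsetSum _ fun i _ => ?_]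
    · refine Finset.sum_congr rfl fun i _ => ?_
      rw [integral_const_mul, integral_const_mul, hmom i]
    · refine Integrable.const_mul ?_ _
      have := Ph_integrable P δ T hT R hR hm (fun x => x ^ i) (continuous_pow i)
      simpa only [Ph_pow δ i _ (hT _)] using this
    · exact (nu_integrable ν R hsupp _ (continuous_pow i)).const_mul _
  simp only [heq] at hl
  exact tendsto_nhds_unique hl hr

theorem exists_dos {H : Type} [NormedAddCommGroup H] [InnerProductSpace ℂ H] [CompleteSpace H]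
    {Ω : Type} [MeasurableSpace Ω] (P : Measure Ω) [IsProbabilityMeasure P]
    (δ : H) (hδ : ‖δ‖ = 1) (T : Ω → (H →L[ℂ] H)) (hT : ∀ ω, IsSelfAdjoint (T ω))
    (R : ℝ) (hR : ∀ ω, ‖T ω‖ ≤ R)
    (hm : ∀ k : ℕ, Measurable fun ω => (inner ℂ δ ((T ω ^ k) δ)).re) :
    ∃ ν : Measure ℝ, IsProbabilityMeasure ν ∧ ν (Icc (-R) R)ᶜ = 0 ∧
      ∀ k : ℕ, ∫ x, x ^ k ∂ν = ∫ ω, (inner ℂ δ ((T ω ^ k) δ)).re ∂P := by
  have hR0 : 0 ≤ R := by
    obtain ⟨ω⟩ := P.nonempty_of_neZero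
    exact (norm_nonneg _).trans (hR ω)
  have hRR : -R ≤ R := by linarith
  let X := Icc (-R) R
  let Φ : CompactlySupportedContinuousMap X ℝ → ℝ → ℝ := fun f => IccExtend hRR f
  have hΦc : ∀ f, Continuous (Φ f) := fun f => f.continuous.Icc_extend'
  let L : CompactlySupportedContinuousMap X ℝ →ₗ[ℝ] ℝ :=
    { toFun := fun f => ∫ ω, Ph δ (Φ f) (T ω) ∂P
      map_add' := by
        intro f g
        rw [← integral_add (Ph_integrable P δ T hT R hR hm _ (hΦc f))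
          (Ph_integrable P δ T hT R hR hm _ (hΦc g))]
        refine integral_congr_ae (Eventually.of_forall fun ω => ?_)
        exact Ph_add δ (Φ f) (Φ g) (hΦc f) (hΦc g) (T ω) (hT ω)
      map_smul' := by
        intro c f
        rw [RingHom.id_apply, smul_eq_mul, ← integral_const_mul]
        refine integral_congr_ae (Eventually.of_forall fun ω => ?_)
        exact Ph_smul δ c (Φ f) (hΦc f) (T ω) (hT ω) }
  let Λ : CompactlySupportedContinuousMap X ℝ →ₚ[ℝ] ℝ :=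
    PositiveLinearMap.mk₀ L (by
      intro f hf
      refine integral_nonneg fun ω => ?_
      exact Ph_nonneg δ (Φ f) (T ω) (hT ω) R (hR ω) fun x _ => hf _)
  let μ : Measure X := RealRMK.rieszMeasure Λ
  have hμ : ∀ g : ℝ → ℝ, ∀ hg : Continuous g, ∫ x : X, g x ∂μ = ∫ ω, Ph δ g (T ω) ∂P := by
    intro g hg
    let f : CompactlySupportedContinuousMap X ℝ :=
      CompactlySupportedContinuousMap.continuousMapEquiv
        ⟨fun x : X => g x, hg.comp continuous_subtype_val⟩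
    have h1 := RealRMK.integral_rieszMeasure Λ f
    have h2 : ∫ x : X, g x ∂μ = ∫ x, f x ∂(RealRMK.rieszMeasure Λ) := rfl
    rw [h2, h1]
    refine integral_congr_ae (Eventually.of_forall fun ω => ?_)
    refine Ph_congr δ (Φ f) g (T ω) (hT ω) R (hR ω) fun x hx => ?_
    show IccExtend hRR f x = g x
    rw [IccExtend_of_mem hRR _ hx]
    rfl
  have hfin : IsFiniteMeasure μ := by
    show IsFiniteMeasure (RealRMK.rieszMeasure Λ)
    infer_instance
  have hprob : IsProbabilityMeasure μ := by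
    have h1 := hμ (fun _ => 1) continuous_const
    have h2 : ∀ ω, Ph δ (fun _ => (1 : ℝ)) (T ω) = 1 := by
      intro ω
      have := Ph_pow δ 0 (T ω) (hT ω)
      simp only [pow_zero] at this
      rw [this]
      simp [hδ]
    simp only [h2] at h1
    rw [integral_const, integral_const] at h1
    simp only [smul_eq_mul, mul_one, probReal_univ] at h1
    constructor
    rw [← ENNReal.toReal_eq_one_iff]
    exact h1
  refine ⟨μ.map Subtype.val, Measure.isProbabilityMeasure_map measurable_subtype_coe.aemeasurable,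
    ?_, ?_⟩
  · rw [Measure.map_apply measurable_subtype_coe measurableSet_Icc.compl]
    have : (Subtype.val : X → ℝ) ⁻¹' (Icc (-R) R)ᶜ = ∅ := by
      ext x
      simp only [mem_preimage, mem_compl_iff, mem_empty_iff_false, iff_false, not_not]
      exact x.2
    rw [this, measure_empty]
  · intro k
    rw [integral_map measurable_subtype_coe.aemeasurable (continuous_pow k).aestronglyMeasurable]
    rw [hμ (fun x => x ^ k) (continuous_pow k)]
    refine integral_congr_ae (Eventually.of_forall fun ω => ?_)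
    exact Ph_pow δ k (T ω) (hT ω)

end aux

end DOS
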