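import Mathlib

/-!
# Block DOS-B5: moments of a convolution

Proof. `μ.conv ν = (μ.prod ν).map (fun p => p.1 + p.2)`. Integrability: both measures are supported in
compact intervals, so powers are bounded almost everywhere. `∫ x^k = ∫∫ (x+y)^k`, expand with `add_pow`,
`integral_finset_sum`, `integral_prod_mul`. Support: `x ∈ Icc (-a) a`, `y ∈ Icc (-b) b` imply
`x + y ∈ Icc (-(a+b)) (a+b)`.
-/

namespace DOS

open MeasureTheory Set Filter Topology

theorem conv_supp (μ ν : Measure ℝ) [IsProbabilityMeasure μ] [IsProbabilityMeasure ν] (a b : ℝ)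
    (hμ : μ (Icc (-a) a)ᶜ = 0) (hν : ν (Icc (-b) b)ᶜ = 0) :
    IsProbabilityMeasure (μ.conv ν) ∧ (μ.conv ν) (Icc (-(a + b)) (a + b))ᶜ = 0 := by
  refine ⟨inferInstance, ?_⟩
  have hm : Measurable (fun p : ℝ × ℝ => p.1 + p.2) := by fun_prop
  rw [Measure.conv, Measure.map_apply hm measurableSet_Icc.compl]
  have hsub : (fun p : ℝ × ℝ => p.1 + p.2) ⁻¹' (Icc (-(a + b)) (a + b))ᶜ ⊆
      ((Icc (-a) a)ᶜ ×ˢ univ) ∪ (univ ×ˢ (Icc (-b) b)ᶜ) := by
    intro p hp
    by_contra hcon
    simp only [mem_union, mem_prod, mem_univ, and_true, true_and, not_or, mem_compl_iff, not_not] at hcon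
    apply hp
    obtain ⟨h1, h2⟩ := hcon
    constructor
    · have := h1.1
      have := h2.1
      linarith
    · have := h1.2
      have := h2.2
      linarith
  refine measure_mono_null hsub (measure_union_null ?_ ?_)
  · rw [Measure.prod_prod, hμ, zero_mul]
  · rw [Measure.prod_prod, hν, mul_zero]

theorem int_of_supp (μ : Measure ℝ) [IsProbabilityMeasure μ] (a : ℝ) (hμ : μ (Icc (-a) a)ᶜ = 0)
    (f : ℝ → ℝ) (hf : Continuous f) : Integrable f μ := by
  obtain ⟨C, hC⟩ := (isCompact_Icc (a := -a) (b := a)).exists_bound_of_continuousOn hf.continuousOn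
  refine Integrable.of_bound hf.aestronglyMeasurable C ?_
  have h : ∀ᵐ x ∂μ, x ∈ Icc (-a) a := by
    rw [ae_iff]
    exact hμ
  filter_upwards [h] with x hx using hC x hx

theorem conv_moments (μ ν : Measure ℝ) [IsProbabilityMeasure μ] [IsProbabilityMeasure ν] (a b : ℝ)
    (hμ : μ (Icc (-a) a)ᶜ = 0) (hν : ν (Icc (-b) b)ᶜ = 0) (k : ℕ) :
    ∫ x, x ^ k ∂(μ.conv ν) = ∑ j ∈ Finset.range (k + 1),
      (∫ x, x ^ j ∂μ) * (∫ x, x ^ (k - j) ∂ν) * (k.choose j : ℝ) := by
  have hm : Measurable (fun p : ℝ × ℝ => p.1 + p.2) := by fun_prop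
  rw [Measure.conv, integral_map hm.aemeasurable (by fun_prop)]
  have e : ∀ p : ℝ × ℝ, (p.1 + p.2) ^ k
      = ∑ j ∈ Finset.range (k + 1), (p.1 ^ j * p.2 ^ (k - j)) * (k.choose j : ℝ) := by
    intro p
    rw [add_pow]
  simp only [e]
  have hint : ∀ j ∈ Finset.range (k + 1),
      Integrable (fun p : ℝ × ℝ => (p.1 ^ j * p.2 ^ (k - j)) * (k.choose j : ℝ)) (μ.prod ν) := by
    intro j _
    apply Integrable.mul_const
    exact (int_of_supp μ a hμ (fun x => x ^ j) (by fun_prop)).mul_prod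
      (int_of_supp ν b hν (fun x => x ^ (k - j)) (by fun_prop))
  rw [integral_finsetSum _ hint]
  apply Finset.sum_congr rfl
  intro j _
  rw [integral_mul_const]
  congr 1
  exact integral_prod_mul (fun x : ℝ => x ^ j) (fun x : ℝ => x ^ (k - j))

/-- weak limits of compactly supported laws: uniqueness by moments -/
theorem eq_of_moments (μ ν : Measure ℝ) [IsProbabilityMeasure μ] [IsProbabilityMeasure ν] (R : ℝ)
    (hμ : μ (Icc (-R) R)ᶜ = 0) (hν : ν (Icc (-R) R)ᶜ = 0)
    (h : ∀ k : ℕ, ∫ x, x ^ k ∂μ = ∫ x, x ^ k ∂ν) : μ = ν := by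
  have hpoly : ∀ p : Polynomial ℝ, ∫ x, p.eval x ∂μ = ∫ x, p.eval x ∂ν := by
    intro p
    have e : ∀ x : ℝ, p.eval x = ∑ i ∈ Finset.range (p.natDegree + 1), p.coeff i * x ^ i :=
      fun x => Polynomial.eval_eq_sum_range x
    simp only [e]
    rw [integral_finsetSum _ (fun i _ => (int_of_supp μ R hμ (fun x => x ^ i) (by fun_prop)).const_mul _),
      integral_finsetSum _ (fun i _ => (int_of_supp ν R hν (fun x => x ^ i) (by fun_prop)).const_mul _)]
    apply Finset.sum_congr rfl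
    intro i _
    rw [integral_const_mul, integral_const_mul, h i]
  apply ext_of_forall_integral_eq_of_IsFiniteMeasure
  intro f
  have hsm : ∀ (m : Measure ℝ) [IsProbabilityMeasure m], m (Icc (-R) R)ᶜ = 0 → ∀ (p : Polynomial ℝ)
      (ε : ℝ), (∀ x ∈ Icc (-R) R, |p.eval x - f x| < ε) → |∫ x, f x ∂m - ∫ x, p.eval x ∂m| ≤ ε := by
    intro m _ hm p ε hp
    have h1 := int_of_supp m R hm (fun x => f x) f.continuous
    have h2 := int_of_supp m R hm (fun x => p.eval x) p.continuous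
    rw [← integral_sub h1 h2]
    have h3 : ∀ᵐ x ∂m, ‖f x - p.eval x‖ ≤ ε := by
      have h : ∀ᵐ x ∂m, x ∈ Icc (-R) R := by
        rw [ae_iff]
        exact hm
      filter_upwards [h] with x hx
      have := hp x hx
      rw [abs_sub_comm] at this
      exact this.le
    have h4 := norm_integral_le_of_norm_le_const h3
    simpa using h4
  apply eq_of_abs_sub_le_all
  intro ε hε
  obtain ⟨p, hp⟩ := exists_polynomial_near_of_continuousOn (-R) R f f.continuous.continuousOn (ε / 2)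
    (half_pos hε)
  have a1 := hsm μ hμ p (ε / 2) hp
  have a2 := hsm ν hν p (ε / 2) hp
  rw [hpoly p] at a1
  rw [abs_le] at *
  constructor <;> linarith [a1.1, a1.2, a2.1, a2.2]

end DOS
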