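import Pool.Agent.Helper41.DOS.Base

/-!
# Block DOS-A2a: Floquet solutions

Proof. `P = Pm V E N` has determinant one (each factor has), so `z = exp (i θ)` satisfies
`det (P - z) = z^2 - z tr P + 1 = 0` and there is `w ≠ 0` in `ℂ²` with `P w = z w`
(`Matrix.exists_mulVec_eq_zero_iff`). Define `a : ℕ → ℂ` by `a 1 = w 0`, `a 0 = w 1`,
`a (n+2) = (E - V (n+1)) a (n+1) - a n`; then `(a (n+1), a n) = Pm V E n w` for all `n`, and
`a (n + N) = z a n` for all `n` (induction, periodicity of `V`). Put `u x = z ^ (x / N) * a (x % N)`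
(`zpow`, floor division, `N > 0`). Then `u (x + N) = z * u x` for all `x` and `u n = a n` for `n : ℕ`.
The equation `Lz V u x = E u x` holds for natural `x ≥ 1`, hence for all `x` by adding a multiple of `N`
(`V` is periodic). `u ≠ 0` since `(u 1, u 0) = w ≠ 0`.
-/

namespace DOS

open FIB MeasureTheory Set Filter Topology

theorem exists_floquet (N : ℕ) (hN : 0 < N) (V : ℤ → ℝ) (hV : ∀ n, V (n + N) = V n) (E θ : ℝ)
    (htr : (Pm (fun n => V (n : ℤ)) E N).trace = 2 * Real.cos θ) :
    ∃ u : ℤ → ℂ, u ≠ 0 ∧ (∀ n, u (n + N) = Complex.exp (θ * Complex.I) * u n) ∧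
      Lz (fun n => (V n : ℂ)) u = (E : ℂ) • u := by
  sorry

end DOS
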