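import Pool.Agent.Helper41.DOS.Word

/-!
# Block DOS-A4: equidistribution of `n al`, `n < fib K`

Proof. Let `N = fib (K+1)`, `P = fib K` (coprime). By `fib_mul_al`, `al = (P - (-al)^(K+1)) / N`, so
`|n al - n P / N| ≤ al^(K+1)` for `0 ≤ n ≤ N`. For `0 ≤ j < N` let `n(j) < N` be the residue with
`n(j) P = j mod N` (a bijection of `range N`), so that `n(j) al` is within `al^(K+1)` of `j / N` modulo
one. Define `g_K ω = g (n(j) al)` for `ω ∈ [j/N, (j+1)/N)`. Then `∫_0^1 g_K = (1/N) ∑_{n<N} g (n al)`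
(sum over the cells). For `ω ∈ [0,1)` not in `D`, `g_K ω = g (ω + h)` with `|h| ≤ al^(K+1) + 1/N → 0`
(periodicity of `g`), so `g_K ω → g ω`. Dominated convergence (`|g| ≤ C`, `D` countable, so null).
-/

namespace DOS

open FIB MeasureTheory Set Filter Topology

/-- the cell of `n` at level `K`: `[σ/N, (σ+1)/N)`, `σ = n P mod N` -/
private noncomputable def cell34 (K n : ℕ) : Set ℝ :=
  Ico (((n * Nat.fib K % Nat.fib (K + 1) : ℕ) : ℝ) / Nat.fib (K + 1))
    ((((n * Nat.fib K % Nat.fib (K + 1) : ℕ) : ℝ) + 1) / Nat.fib (K + 1))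

private noncomputable def step34 (g : ℝ → ℝ) (K : ℕ) (ω : ℝ) : ℝ :=
  ∑ n ∈ Finset.range (Nat.fib (K + 1)), (cell34 K n).indicator (fun _ => g ((n : ℝ) * al)) ω

private theorem per34 (g : ℝ → ℝ) (hper : ∀ x, g (x + 1) = g x) (m : ℕ) (x : ℝ) :
    g (x + m) = g x := by
  induction m with
  | zero => simp
  | succ m ih =>
    push_cast
    rw [← add_assoc, hper, ih]

private theorem inj34 (K : ℕ) {n n' : ℕ} (hn : n < Nat.fib (K + 1)) (hn' : n' < Nat.fib (K + 1))
    (h : n * Nat.fib K % Nat.fib (K + 1) = n' * Nat.fib K % Nat.fib (K + 1)) : n = n' := by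
  have hco : Nat.Coprime (Nat.fib (K + 1)) (Nat.fib K) := (Nat.fib_coprime_fib_succ K).symm
  have h1 : n * Nat.fib K ≡ n' * Nat.fib K [MOD Nat.fib (K + 1)] := h
  have h2 := Nat.ModEq.cancel_right_of_coprime hco h1
  exact Nat.ModEq.eq_of_lt_of_lt h2 hn hn'

private theorem surj34 (K : ℕ) {j : ℕ} (hj : j < Nat.fib (K + 1)) :
    ∃ n, n < Nat.fib (K + 1) ∧ n * Nat.fib K % Nat.fib (K + 1) = j := by
  have hN : 0 < Nat.fib (K + 1) := Nat.fib_pos.2 (Nat.succ_pos K)
  have hmaps : Set.MapsTo (fun n => n * Nat.fib K % Nat.fib (K + 1))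
      (Finset.range (Nat.fib (K + 1)) : Set ℕ) (Finset.range (Nat.fib (K + 1)) : Set ℕ) := by
    intro n _
    simp only [Finset.coe_range, mem_Iio]
    exact Nat.mod_lt _ hN
  have hinj : Set.InjOn (fun n => n * Nat.fib K % Nat.fib (K + 1))
      (Finset.range (Nat.fib (K + 1)) : Set ℕ) := by
    intro a ha b hb hab
    simp only [Finset.coe_range, mem_Iio] at ha hb
    exact inj34 K ha hb hab
  have hsurj := (Finset.surjOn_of_injOn_of_card_le (fun n => n * Nat.fib K % Nat.fib (K + 1))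
    hmaps hinj le_rfl)
  obtain ⟨n, hn, hn'⟩ := hsurj (by simpa using hj : j ∈ (Finset.range (Nat.fib (K + 1)) : Set ℕ))
  exact ⟨n, by simpa using hn, hn'⟩

/-- pointwise description of the step function -/
private theorem point34 (g : ℝ → ℝ) (hper : ∀ x, g (x + 1) = g x) (K : ℕ) {ω : ℝ}
    (hω : ω ∈ Ico (0 : ℝ) 1) :
    ∃ y : ℝ, step34 g K ω = g y ∧ |y - ω| ≤ 1 / (Nat.fib (K + 1) : ℝ) + al ^ (K + 1) := by
  have hN : 0 < Nat.fib (K + 1) := Nat.fib_pos.2 (Nat.succ_pos K)
  set N := Nat.fib (K + 1) with hNdef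
  have hNR : (0 : ℝ) < N := by exact_mod_cast hN
  have hj : ⌊(N : ℝ) * ω⌋₊ < N := by
    rw [Nat.floor_lt (mul_nonneg hNR.le hω.1)]
    have := mul_lt_mul_of_pos_left hω.2 hNR
    linarith
  obtain ⟨n, hn, hσ⟩ := surj34 K hj
  rw [← hNdef] at hn hσ
  have hf1 := Nat.floor_le (mul_nonneg hNR.le hω.1)
  have hf2 := Nat.lt_floor_add_one ((N : ℝ) * ω)
  have hmem : ω ∈ cell34 K n := by
    unfold cell34
    rw [← hNdef, hσ, mem_Ico, div_le_iff₀ hNR, lt_div_iff₀ hNR]
    constructor <;> linarith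
  have hval : step34 g K ω = g ((n : ℝ) * al) := by
    unfold step34
    rw [Finset.sum_eq_single n]
    · rw [indicator_of_mem hmem]
    · intro m hm hmn
      rw [indicator_of_notMem]
      intro hmem'
      apply hmn
      refine inj34 K (Finset.mem_range.1 hm) hn ?_
      rw [← hNdef, hσ]
      unfold cell34 at hmem'
      rw [← hNdef, mem_Ico, div_le_iff₀ hNR, lt_div_iff₀ hNR] at hmem'
      symm
      rw [Nat.floor_eq_iff (mul_nonneg hNR.le hω.1)]
      constructor <;> linarith [hmem'.1, hmem'.2]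
    · intro h
      exact absurd (Finset.mem_range.2 hn) h
  have hdiv : ((n * Nat.fib K : ℕ) : ℝ) = (N : ℝ) * ((n * Nat.fib K / N : ℕ) : ℝ) +
      ((n * Nat.fib K % N : ℕ) : ℝ) := by
    exact_mod_cast (Nat.div_add_mod (n * Nat.fib K) N).symm
  have hal := fib_mul_al K
  rw [← hNdef] at hal
  refine ⟨((n * Nat.fib K % N : ℕ) : ℝ) / N - (n / N : ℝ) * (-al) ^ (K + 1), ?_, ?_⟩
  · rw [hval]
    rw [← per34 g hper (n * Nat.fib K / N)
      (((n * Nat.fib K % N : ℕ) : ℝ) / N - (n / N : ℝ) * (-al) ^ (K + 1))]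
    congr 1
    have h1 : (n : ℝ) * al * N = n * Nat.fib K - n * (-al) ^ (K + 1) := by
      calc (n : ℝ) * al * N = n * ((N : ℝ) * al) := by ring
        _ = _ := by rw [hal]; ring
    push_cast at hdiv
    rw [hdiv] at h1
    field_simp
    linarith
  · have h1 : |((n * Nat.fib K % N : ℕ) : ℝ) / N - ω| ≤ 1 / (N : ℝ) := by
      rw [hσ]
      have h2 : (⌊(N : ℝ) * ω⌋₊ : ℝ) / N - ω = ((⌊(N : ℝ) * ω⌋₊ : ℝ) - N * ω) / N := by
        field_simp
      rw [h2, abs_div, abs_of_pos hNR]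
      refine div_le_div_of_nonneg_right ?_ hNR.le
      rw [abs_le]
      constructor <;> linarith
    have h2 : |(n / N : ℝ) * (-al) ^ (K + 1)| ≤ al ^ (K + 1) := by
      rw [abs_mul, abs_pow, abs_neg, abs_of_pos al_pos]
      have h3 : |(n / N : ℝ)| ≤ 1 := by
        rw [abs_of_nonneg (by positivity), div_le_one hNR]
        exact_mod_cast hn.le
      have h4 : 0 ≤ al ^ (K + 1) := pow_nonneg al_pos.le _
      calc |(n / N : ℝ)| * al ^ (K + 1) ≤ 1 * al ^ (K + 1) := mul_le_mul_of_nonneg_right h3 h4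
        _ = _ := one_mul _
    have h5 : ((n * Nat.fib K % N : ℕ) : ℝ) / N - (n / N : ℝ) * (-al) ^ (K + 1) - ω =
        (((n * Nat.fib K % N : ℕ) : ℝ) / N - ω) - (n / N : ℝ) * (-al) ^ (K + 1) := by ring
    rw [h5]
    exact (abs_sub _ _).trans (add_le_add h1 h2)

private theorem int34 (g : ℝ → ℝ) (K : ℕ) :
    ∫ ω in Ico (0 : ℝ) 1, step34 g K ω =
      (∑ n ∈ Finset.range (Nat.fib (K + 1)), g ((n : ℝ) * al)) / (Nat.fib (K + 1) : ℝ) := by
  have hN : 0 < Nat.fib (K + 1) := Nat.fib_pos.2 (Nat.succ_pos K)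
  have hNR : (0 : ℝ) < Nat.fib (K + 1) := by exact_mod_cast hN
  unfold step34
  have hcm : ∀ n, MeasurableSet (cell34 K n) := fun n => measurableSet_Ico
  rw [integral_finsetSum]
  · rw [Finset.sum_div]
    refine Finset.sum_congr rfl fun n hn => ?_
    rw [integral_indicator (hcm n), setIntegral_const, Measure.real, Measure.restrict_apply' measurableSet_Ico]
    have hsub : cell34 K n ⊆ Ico (0 : ℝ) 1 := by
      unfold cell34
      refine Ico_subset_Ico (by positivity) ?_
      rw [div_le_one hNR]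
      have := Nat.mod_lt (n * Nat.fib K) hN
      exact_mod_cast this
    rw [inter_eq_self_of_subset_left hsub]
    unfold cell34
    rw [Real.volume_Ico]
    have : ((((n * Nat.fib K % Nat.fib (K + 1) : ℕ) : ℝ) + 1) / Nat.fib (K + 1)) -
        (((n * Nat.fib K % Nat.fib (K + 1) : ℕ) : ℝ) / Nat.fib (K + 1)) =
        1 / (Nat.fib (K + 1) : ℝ) := by
      field_simp; ring
    rw [this, ENNReal.toReal_ofReal (by positivity), smul_eq_mul]
    ring
  · intro n hn
    refine (integrable_indicator_iff (hcm n)).2 ?_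
    refine integrableOn_const ?_ ?_
    · rw [Measure.restrict_apply (hcm n)]
      exact ne_of_lt (lt_of_le_of_lt (measure_mono inter_subset_left) (by
        unfold cell34; rw [Real.volume_Ico]; exact ENNReal.ofReal_lt_top))
    · simp

theorem equi (g : ℝ → ℝ) (hper : ∀ x, g (x + 1) = g x) (C : ℝ) (hC : ∀ x, |g x| ≤ C)
    (D : Set ℝ) (hD : D.Countable) (hc : ∀ x, x ∉ D → ContinuousAt g x) :
    Tendsto (fun K => (∑ n ∈ Finset.range (Nat.fib K), g ((n : ℝ) * al)) / (Nat.fib K : ℝ)) atTop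
      (𝓝 (∫ x in (0 : ℝ)..1, g x)) := by
  rw [← tendsto_add_atTop_iff_nat 1]
  have hint : ∫ x in (0 : ℝ)..1, g x = ∫ x in Ico (0 : ℝ) 1, g x := by
    rw [intervalIntegral.integral_of_le zero_le_one, integral_Ico_eq_integral_Ioo,
      integral_Ioc_eq_integral_Ioo]
  rw [hint]
  have heq : (fun K => (∑ n ∈ Finset.range (Nat.fib (K + 1)), g ((n : ℝ) * al)) /
      (Nat.fib (K + 1) : ℝ)) = fun K => ∫ ω in Ico (0 : ℝ) 1, step34 g K ω := by
    funext K
    exact (int34 g K).symm
  rw [heq]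
  have herr : Tendsto (fun K => 1 / (Nat.fib (K + 1) : ℝ) + al ^ (K + 1)) atTop (𝓝 0) := by
    have h1 : Tendsto (fun K => (Nat.fib (K + 1) : ℝ)) atTop atTop := by
      refine tendsto_natCast_atTop_atTop.comp ?_
      refine tendsto_atTop_mono (f := fun K => K) (fun K => ?_) tendsto_id
      have := Nat.le_fib_add_one (K + 1)
      omega
    have h2 : Tendsto (fun K => 1 / (Nat.fib (K + 1) : ℝ)) atTop (𝓝 0) := by
      simp only [one_div]
      exact h1.inv_tendsto_atTop
    have h3 : Tendsto (fun K => al ^ (K + 1)) atTop (𝓝 0) :=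
      (tendsto_add_atTop_iff_nat 1).2 (tendsto_pow_atTop_nhds_zero_of_lt_one al_pos.le al_lt_one)
    simpa using h2.add h3
  refine tendsto_integral_of_dominated_convergence (fun _ => C) ?_ ?_ ?_ ?_
  · intro K
    refine Measurable.aestronglyMeasurable ?_
    unfold step34
    refine Finset.measurable_sum _ fun n _ => ?_
    exact measurable_const.indicator measurableSet_Ico
  · exact integrableOn_const (by simp) (by simp)
  · intro K
    refine (ae_restrict_iff' measurableSet_Ico).2 (Eventually.of_forall fun ω hω => ?_)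
    obtain ⟨y, hy, -⟩ := point34 g hper K hω
    rw [hy]
    exact hC y
  · refine (ae_restrict_iff' measurableSet_Ico).2 ?_
    filter_upwards [hD.ae_notMem volume] with ω hωD hω
    choose y hy1 hy2 using fun K => point34 g hper K hω
    have hy : Tendsto y atTop (𝓝 ω) := by
      rw [tendsto_iff_dist_tendsto_zero]
      refine squeeze_zero (fun _ => dist_nonneg) (fun K => ?_) herr
      rw [Real.dist_eq]
      exact hy2 K
    have := (hc ω hωD).tendsto.comp hy
    refine this.congr fun K => ?_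
    exact (hy1 K).symm

end DOS
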