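import Pool.Agent.Helper41.DOS.Mom
import Pool.Agent.Helper75.FIB.DosStubs

/-!
# DOS: moments of the laws of `FIB.EK`
-/

namespace DOS

open MeasureTheory Set Filter Topology

theorem cos_Th (K : ℕ) (l E : ℝ) : Real.cos (FIB.Th K l E) = FIB.clip (FIB.tr K E l) := by
  have hc1 : -1 ≤ FIB.clip (FIB.tr K E l) := le_max_left _ _
  have hc2 : FIB.clip (FIB.tr K E l) ≤ 1 := max_le (by norm_num) (min_le_left _ _)
  unfold FIB.Th
  rcases Nat.even_or_odd (FIB.crit K l E) with h | h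
  · obtain ⟨m, hm⟩ := h
    have e1 : ((-1 : ℝ)) ^ FIB.crit K l E = 1 := by rw [hm, ← two_mul, pow_mul]; simp
    rw [e1, one_mul, hm]
    have : Real.pi * ((m + m : ℕ) : ℝ) + Real.arccos (FIB.clip (FIB.tr K E l)) =
        Real.arccos (FIB.clip (FIB.tr K E l)) + (m : ℝ) * (2 * Real.pi) := by push_cast; ring
    rw [this, Real.cos_add_nat_mul_two_pi, Real.cos_arccos hc1 hc2]
  · obtain ⟨m, hm⟩ := h
    have e1 : ((-1 : ℝ)) ^ FIB.crit K l E = -1 := by rw [hm, pow_succ, pow_mul]; simp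
    rw [e1, neg_one_mul, hm, Real.arccos_neg]
    have : Real.pi * ((2 * m + 1 : ℕ) : ℝ) + (Real.pi - Real.arccos (FIB.clip (FIB.tr K E l))) =
        -Real.arccos (FIB.clip (FIB.tr K E l)) + ((m + 1 : ℕ) : ℝ) * (2 * Real.pi) := by
      push_cast; ring
    rw [this, Real.cos_add_nat_mul_two_pi, Real.cos_neg, Real.cos_arccos hc1 hc2]

/-- If `sin Th ≠ 0` then `tr = cos Th`. -/
theorem tr_eq_cos (K : ℕ) (l E : ℝ) (h : Real.sin (FIB.Th K l E) ≠ 0) :
    FIB.tr K E l = Real.cos (FIB.Th K l E) := by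
  have h1 : |Real.cos (FIB.Th K l E)| < 1 := by
    rw [abs_lt]
    have h2 := Real.sin_sq_add_cos_sq (FIB.Th K l E)
    have h3 : 0 < Real.sin (FIB.Th K l E) ^ 2 := by positivity
    constructor <;> nlinarith
  rw [cos_Th] at h1 ⊢
  unfold FIB.clip at h1 ⊢
  rw [abs_lt] at h1
  rcases le_or_gt 1 (FIB.tr K E l) with h2 | h2
  · rw [min_eq_left h2] at h1
    have := le_max_right (-1 : ℝ) 1
    linarith [h1.2]
  · rw [min_eq_right h2.le] at h1 ⊢
    rcases le_or_gt (FIB.tr K E l) (-1) with h3 | h3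
    · rw [max_eq_left h3] at h1
      linarith [h1.1]
    · rw [max_eq_right h3.le]

theorem moments_lim (hQ : FIB.QuantileProps) (l : ℝ) (hl : 0 < l) (hl2 : l < 1 / 8) (k : ℕ) :
    Tendsto (fun K => ∫ t in (0 : ℝ)..1, (FIB.EK K l t) ^ k) atTop (𝓝 (FIB.mom l k)) := by
  refine moments_lim_of l (fun K t => FIB.EK K l t) 3 ?_ ?_ ?_ ?_ k
  · filter_upwards [eventually_ge_atTop 1] with K hK
    have h1 := ((hQ K hK).2.2.2.2.1 l l hl hl2).1
    have h2 : Measurable (fun t : ℝ => (l, t)) := measurable_prodMk_left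
    have h3 := h1.comp h2
    have h4 : Measurable (indicator (Ioo (0 : ℝ) 1) (fun t => FIB.EK K l t)) := by
      convert h3 using 1
      funext t
      simp only [Function.comp, indicator]
      by_cases ht : t ∈ Ioo (0 : ℝ) 1
      · have : (l, t) ∈ Icc l l ×ˢ Ioo (0 : ℝ) 1 := ⟨⟨le_rfl, le_rfl⟩, ht⟩
        simp only [if_pos ht, if_pos this]
      · have : (l, t) ∉ Icc l l ×ˢ Ioo (0 : ℝ) 1 := fun h => ht h.2
        simp only [if_neg ht, if_neg this]
    refine (h4.aestronglyMeasurable (μ := volume.restrict (Ioo (0 : ℝ) 1))).congr ?_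
    refine (ae_restrict_iff' measurableSet_Ioo).2 (Filter.Eventually.of_forall fun t ht => ?_)
    exact indicator_of_mem ht _
  · filter_upwards [eventually_ge_atTop 1] with K hK t ht
    exact (hQ K hK).1 l hl hl2.le t ht
  · filter_upwards [eventually_ge_atTop 1] with K hK t ht hj
    have h1 := (hQ K hK).2.1 l hl hl2.le t ht
    have h2 : Real.sin (FIB.Th K l (FIB.EK K l t)) ≠ 0 := by
      rw [h1]
      intro h3
      obtain ⟨n, hn⟩ := Real.sin_eq_zero_iff.1 h3
      apply hj n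
      have := Real.pi_pos
      have h4 : Real.pi * ((Nat.fib K : ℝ) * t) = Real.pi * n := by
        rw [← mul_assoc, ← hn]; ring
      exact mul_left_cancel₀ this.ne' h4
    rw [tr_eq_cos K l _ h2, h1]
  · filter_upwards [eventually_ge_atTop 1] with K hK t ht t' ht' h
    have h1 := (hQ K hK).2.1 l hl hl2.le t ht
    have h2 := (hQ K hK).2.1 l hl hl2.le t' ht'
    rw [h, h2] at h1
    have h3 : (0 : ℝ) < Real.pi * Nat.fib K := by
      have : 0 < Nat.fib K := Nat.fib_pos.2 (by omega)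
      have := Real.pi_pos
      positivity
    exact (mul_left_cancel₀ h3.ne' h1).symm

end DOS
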