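import Pool.Agent.Helper41.DOS.Word

/-!
# Block DOS-A5: the function `ω ↦ Gk l k ω`

Proof. `pot l (ω+1) = pot l ω` (`Int.fract_add_one`), so `Gk` is periodic. By induction on `k`, for every
fixed sequence `u` and site `n`, `ω ↦ ((Hf l ω)^[k] u) n` is measurable (`Function.iterate_succ_apply'`;
`pot l ω n` is measurable in `ω`: `pot_eq`, `Int.measurable_floor`), and continuous at every `ω` at which
all `ω ↦ pot l ω m` are continuous, in particular at `ω` not in `D = {ω | ∃ m j : ℤ, m al + ω = j}`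
(`pot_eq`; the floor function is locally constant off the integers). `D` is countable (image of `ℤ × ℤ`).
-/

namespace DOS

open FIB MeasureTheory Set Filter Topology

/-- the exceptional phases -/
def Dex : Set ℝ := {ω | ∃ m j : ℤ, (m : ℝ) * al + ω = j}

theorem Dex_countable : Dex.Countable := by
  refine (countable_range (fun p : ℤ × ℤ => (p.2 : ℝ) - (p.1 : ℝ) * al)).mono ?_
  rintro ω ⟨m, j, h⟩
  exact ⟨(m, j), by simp only; linarith⟩

theorem pot_per (l ω : ℝ) (n : ℤ) : pot l (ω + 1) n = pot l ω n := by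
  unfold pot
  rw [← add_assoc, Int.fract_add_one]

theorem pot_meas (l : ℝ) (n : ℤ) : Measurable fun ω => pot l ω n := by
  unfold pot
  refine measurable_const.mul ((measurable_const.indicator measurableSet_Ico).comp ?_)
  exact measurable_fract.comp (by fun_prop)

theorem Hf_meas (l : ℝ) (k : ℕ) (u : ℤ → ℝ) (n : ℤ) :
    Measurable fun ω => ((Hf l ω)^[k] u) n := by
  induction k generalizing n with
  | zero => exact measurable_const
  | succ k ih =>
    simp only [Function.iterate_succ_apply', Hf]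
    exact ((ih (n + 1)).add (ih (n - 1))).add ((pot_meas l n).mul (ih n))

theorem h53_pot_cont (l : ℝ) (n : ℤ) (ω : ℝ) (hω : ω ∉ Dex) :
    ContinuousAt (fun ω => pot l ω n) ω := by
  have hfl : ∀ m : ℤ, ContinuousAt (fun ω : ℝ => (⌊(m : ℝ) * al + ω⌋ : ℝ)) ω := by
    intro m
    have h1 : ((⌊(m : ℝ) * al + ω⌋ : ℤ) : ℝ) < (m : ℝ) * al + ω := by
      refine lt_of_le_of_ne (Int.floor_le _) ?_
      intro h
      exact hω ⟨m, ⌊(m : ℝ) * al + ω⌋, h.symm⟩
    have h2 := (continuousOn_floor (α := ℝ) ⌊(m : ℝ) * al + ω⌋).continuousAt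
      (Ico_mem_nhds h1 (Int.lt_floor_add_one _))
    exact ContinuousAt.comp (f := fun ω : ℝ => (m : ℝ) * al + ω) h2 (by fun_prop)
  have h3 := hfl (n + 1)
  have h4 := hfl n
  push_cast at h3
  simp only [pot_eq]
  exact continuousAt_const.mul (h3.sub h4)

theorem h53_Hf_cont (l : ℝ) (k : ℕ) (u : ℤ → ℝ) (n : ℤ) (ω : ℝ) (hω : ω ∉ Dex) :
    ContinuousAt (fun ω => ((Hf l ω)^[k] u) n) ω := by
  induction k generalizing n with
  | zero => exact continuousAt_const
  | succ k ih =>
    simp only [Function.iterate_succ_apply', Hf]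
    exact ((ih (n + 1)).add (ih (n - 1))).add ((h53_pot_cont l n ω hω).mul (ih n))

theorem Gk_meas (l : ℝ) (k : ℕ) : Measurable (Gk l k) :=
  Hf_meas l k _ 0

theorem Gk_per (l : ℝ) (k : ℕ) (ω : ℝ) : Gk l k (ω + 1) = Gk l k ω := by
  have h : Hf l (ω + 1) = Hf l ω := by
    funext u n
    simp only [Hf, pot_per]
  unfold Gk
  rw [h]

theorem Gk_cont (l : ℝ) (k : ℕ) (ω : ℝ) (hω : ω ∉ Dex) : ContinuousAt (Gk l k) ω :=
  h53_Hf_cont l k _ 0 ω hω

end DOS
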