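import Pool.Agent.Helper41.DOS.Base

/-!
# Block DOS-B2: matrix elements of powers

Proof. If `ψ : l2 G` has the real values `u : G → ℝ` (`ψ x = (u x : ℂ)`) then `T ψ` has the values `LG S V u`;
by induction `T^k δ` has the values `(LG S V)^[k] (Pi.single 0 1)` (`pow_succ'`, `Function.iterate_succ_apply'`).
Finally `⟪lp.single 2 0 1, φ⟫ = φ 0` (`lp.inner_single_left`).
-/

namespace DOS

open FIB MeasureTheory Set Filter Topology

theorem IsOp.pow_apply {G : Type} [AddCommGroup G] [DecidableEq G] {S : Finset G} {V : G → ℝ}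
    {T : l2 G →L[ℂ] l2 G} (h : IsOp S V T) (ψ : l2 G) (u : G → ℝ)
    (hu : ∀ x, (ψ : G → ℂ) x = ((u x : ℝ) : ℂ)) (k : ℕ) :
    ∀ x, ((T ^ k) ψ : G → ℂ) x = ((((LG S V)^[k] u) x : ℝ) : ℂ) := by
  induction k with
  | zero => simpa using hu
  | succ k ih =>
    intro x
    rw [pow_succ', Function.iterate_succ_apply', mul_apply_eq_comp, h _ x]
    simp only [LG, ih]
    push_cast
    ring

theorem inner_pow {G : Type} [AddCommGroup G] [DecidableEq G] (S : Finset G) (V : G → ℝ)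
    (T : l2 G →L[ℂ] l2 G) (h : IsOp S V T) (k : ℕ) :
    inner ℂ (lp.single (E := fun _ : G => ℂ) 2 (0 : G) (1 : ℂ))
        ((T ^ k) (lp.single (E := fun _ : G => ℂ) 2 (0 : G) (1 : ℂ)))
      = ((((LG S V)^[k] (Pi.single 0 1)) 0 : ℝ) : ℂ) := by
  rw [lp.inner_single_left]
  rw [h.pow_apply (lp.single (E := fun _ : G => ℂ) 2 (0 : G) (1 : ℂ)) (Pi.single 0 1) ?_ k 0]
  · simp
  · intro x
    by_cases hx : x = 0
    · subst hx
      simp
    · simp [hx]

end DOS
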