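import Pool.Agent.Helper41.DOS.Base

/-!
# Block DOS-B1: the operator on `ℓ²(G)`

Proof. For `s : G` the shift `(U_s ψ) x = ψ (x + s)` maps `ℓ²` to itself isometrically (reindex the sum,
`Equiv.addRight`), the multiplication by a real function bounded by `C` is bounded with norm `≤ C`
(`memℓp_gen_iff`, `lp.norm_rpow_eq_tsum`, `LinearMap.mkContinuous`). `T` is the sum of the shifts, `s ∈ S`,
and of the multiplication. Symmetric: `⟪T ψ, φ⟫ = ∑ x, conj ((T ψ) x) φ x` (`lp.inner_eq_tsum`), the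
term of `s` becomes that of `-s` by the substitution `x ↦ x - s`; so `T` is self-adjoint
(`ContinuousLinearMap.isSelfAdjoint_iff_isSymmetric`).
-/

namespace DOS

open FIB MeasureTheory Set Filter Topology

section h85

variable {G : Type} [AddCommGroup G]

theorem h85_summable (ψ : l2 G) : Summable fun x => ‖ψ x‖ ^ (2 : ℝ) := by
  have h := lp.memℓp ψ
  have h2 := h.summable (by norm_num)
  simpa using h2

theorem h85_norm_sq (ψ : l2 G) : ‖ψ‖ ^ (2 : ℝ) = ∑' x, ‖ψ x‖ ^ (2 : ℝ) := by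
  have h := lp.norm_rpow_eq_tsum (p := 2) (by norm_num) ψ
  simpa using h

theorem h85_mem_shift (s : G) (ψ : l2 G) : Memℓp (fun x => ψ (x + s)) 2 := by
  refine memℓp_gen ?_
  have h := (Equiv.addRight s).summable_iff.2 (h85_summable ψ)
  simpa [Function.comp_def] using h

theorem h85_mem_mul (V : G → ℝ) (C : ℝ) (hV : ∀ x, |V x| ≤ C) (ψ : l2 G) :
    Memℓp (fun x => ((V x : ℝ) : ℂ) * ψ x) 2 := by
  refine memℓp_gen ?_
  have h := (h85_summable ψ).mul_left (C ^ (2 : ℝ))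
  refine Summable.of_nonneg_of_le (fun x => by positivity) (fun x => ?_) h
  rw [norm_mul, Complex.norm_real, Real.norm_eq_abs]
  have e2 : (2 : ENNReal).toReal = 2 := by norm_num
  rw [e2, Real.mul_rpow (abs_nonneg _) (norm_nonneg _)]
  gcongr
  exact hV x

/-- shift -/
noncomputable def h85_shf (s : G) : l2 G →L[ℂ] l2 G :=
  LinearMap.mkContinuous
    { toFun := fun ψ => (⟨fun x => ψ (x + s), h85_mem_shift s ψ⟩ : l2 G)
      map_add' := fun ψ φ => by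
        ext x
        rfl
      map_smul' := fun c ψ => by
        ext x
        rfl } 1 (by
    intro ψ
    rw [one_mul]
    refine le_of_eq ?_
    have h1 := h85_norm_sq ψ
    have h2 := h85_norm_sq (⟨fun x => ψ (x + s), h85_mem_shift s ψ⟩ : l2 G)
    have h3 : ∑' x, ‖ψ (x + s)‖ ^ (2 : ℝ) = ∑' x, ‖ψ x‖ ^ (2 : ℝ) :=
      (Equiv.addRight s).tsum_eq (fun x => ‖ψ x‖ ^ (2 : ℝ))
    have h4 : ‖(⟨fun x => ψ (x + s), h85_mem_shift s ψ⟩ : l2 G)‖ ^ (2 : ℝ) = ‖ψ‖ ^ (2 : ℝ) := by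
      rw [h1, h2]
      exact h3
    exact (Real.rpow_left_inj (norm_nonneg _) (norm_nonneg _) (by norm_num)).1 h4)

theorem h85_shf_apply (s : G) (ψ : l2 G) (x : G) : (h85_shf s ψ : G → ℂ) x = ψ (x + s) := rfl

theorem h85_shf_norm (s : G) : ‖(h85_shf s : l2 G →L[ℂ] l2 G)‖ ≤ 1 :=
  LinearMap.mkContinuous_norm_le _ zero_le_one _

theorem h85_mul_bound (V : G → ℝ) (C : ℝ) (hC : 0 ≤ C) (hV : ∀ x, |V x| ≤ C) (ψ : l2 G) :
    ‖(⟨fun x => ((V x : ℝ) : ℂ) * ψ x, h85_mem_mul V C hV ψ⟩ : l2 G)‖ ≤ C * ‖ψ‖ := by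
  have h1 := h85_norm_sq ψ
  have h2 := h85_norm_sq (⟨fun x => ((V x : ℝ) : ℂ) * ψ x, h85_mem_mul V C hV ψ⟩ : l2 G)
  have hs1 := h85_summable ψ
  have hs2 := h85_summable (⟨fun x => ((V x : ℝ) : ℂ) * ψ x, h85_mem_mul V C hV ψ⟩ : l2 G)
  have h4 : ‖(⟨fun x => ((V x : ℝ) : ℂ) * ψ x, h85_mem_mul V C hV ψ⟩ : l2 G)‖ ^ (2 : ℝ) ≤
      (C * ‖ψ‖) ^ (2 : ℝ) := by
    rw [Real.mul_rpow hC (norm_nonneg _), h1, h2, ← tsum_mul_left]
    refine Summable.tsum_le_tsum (fun x => ?_) hs2 (hs1.mul_left _)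
    change ‖((V x : ℝ) : ℂ) * ψ x‖ ^ (2 : ℝ) ≤ _
    rw [norm_mul, Complex.norm_real, Real.norm_eq_abs, Real.mul_rpow (abs_nonneg _) (norm_nonneg _)]
    gcongr
    exact hV x
  exact (Real.rpow_le_rpow_iff (norm_nonneg _) (by positivity) (by norm_num)).1 h4

/-- multiplication by a bounded function -/
noncomputable def h85_mul (V : G → ℝ) (C : ℝ) (hC : 0 ≤ C) (hV : ∀ x, |V x| ≤ C) : l2 G →L[ℂ] l2 G :=
  LinearMap.mkContinuous
    { toFun := fun ψ => (⟨fun x => ((V x : ℝ) : ℂ) * ψ x, h85_mem_mul V C hV ψ⟩ : l2 G)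
      map_add' := fun ψ φ => by
        ext x
        exact mul_add _ _ _
      map_smul' := fun c ψ => by
        ext x
        exact mul_left_comm _ _ _ } C (h85_mul_bound V C hC hV)

theorem h85_mul_apply (V : G → ℝ) (C : ℝ) (hC : 0 ≤ C) (hV : ∀ x, |V x| ≤ C) (ψ : l2 G) (x : G) :
    (h85_mul V C hC hV ψ : G → ℂ) x = ((V x : ℝ) : ℂ) * ψ x := rfl

theorem h85_mul_norm (V : G → ℝ) (C : ℝ) (hC : 0 ≤ C) (hV : ∀ x, |V x| ≤ C) :
    ‖h85_mul V C hC hV‖ ≤ C :=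
  LinearMap.mkContinuous_norm_le _ hC _

/-- the operator -/
noncomputable def h85_op (S : Finset G) (V : G → ℝ) (C : ℝ) (hC : 0 ≤ C) (hV : ∀ x, |V x| ≤ C) :
    l2 G →L[ℂ] l2 G :=
  ∑ s ∈ S, h85_shf s + h85_mul V C hC hV

theorem h85_op_apply (S : Finset G) (V : G → ℝ) (C : ℝ) (hC : 0 ≤ C) (hV : ∀ x, |V x| ≤ C)
    (ψ : l2 G) (x : G) :
    (h85_op S V C hC hV ψ : G → ℂ) x = ∑ s ∈ S, ψ (x + s) + ((V x : ℝ) : ℂ) * ψ x := by
  unfold h85_op
  rw [ContinuousLinearMap.add_apply, ContinuousLinearMap.sum_apply, lp.coeFn_add, Pi.add_apply,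
    lp.coeFn_sum, Finset.sum_apply]
  rfl

theorem h85_shf_inner (s : G) (ψ φ : l2 G) :
    inner ℂ (h85_shf s ψ) φ = inner ℂ ψ (h85_shf (-s) φ) := by
  rw [lp.inner_eq_tsum, lp.inner_eq_tsum]
  rw [← (Equiv.addRight (-s)).tsum_eq (fun x => inner ℂ ((h85_shf s ψ : G → ℂ) x) (φ x))]
  refine tsum_congr fun x => ?_
  simp only [Equiv.coe_addRight, h85_shf_apply]
  rw [neg_add_cancel_right]

theorem h85_mul_inner (V : G → ℝ) (C : ℝ) (hC : 0 ≤ C) (hV : ∀ x, |V x| ≤ C) (ψ φ : l2 G) :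
    inner ℂ (h85_mul V C hC hV ψ) φ = inner ℂ ψ (h85_mul V C hC hV φ) := by
  rw [lp.inner_eq_tsum, lp.inner_eq_tsum]
  refine tsum_congr fun x => ?_
  simp only [h85_mul_apply]
  simp only [RCLike.inner_apply, map_mul, Complex.conj_ofReal]
  ring

end h85

theorem exists_op {G : Type} [AddCommGroup G] (S : Finset G) (hS : ∀ s ∈ S, -s ∈ S)
    (V : G → ℝ) (C : ℝ) (hC : 0 ≤ C) (hV : ∀ x, |V x| ≤ C) :
    ∃ T : l2 G →L[ℂ] l2 G, IsSelfAdjoint T ∧ ‖T‖ ≤ (S.card : ℝ) + C ∧ IsOp S V T := by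
  refine ⟨h85_op S V C hC hV, ?_, ?_, fun ψ x => h85_op_apply S V C hC hV ψ x⟩
  · rw [ContinuousLinearMap.isSelfAdjoint_iff_isSymmetric]
    intro ψ φ
    change inner ℂ (h85_op S V C hC hV ψ) φ = inner ℂ ψ (h85_op S V C hC hV φ)
    unfold h85_op
    rw [ContinuousLinearMap.add_apply, ContinuousLinearMap.sum_apply, inner_add_left, sum_inner,
      ContinuousLinearMap.add_apply, ContinuousLinearMap.sum_apply, inner_add_right, inner_sum,
      h85_mul_inner]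
    congr 1
    refine Finset.sum_bij' (fun s _ => -s) (fun s _ => -s) (fun s hs => hS s hs) (fun s hs => hS s hs)
      (fun s _ => neg_neg s) (fun s _ => neg_neg s) (fun s _ => ?_)
    exact h85_shf_inner s ψ φ
  · unfold h85_op
    refine (norm_add_le _ _).trans (add_le_add ?_ (h85_mul_norm V C hC hV))
    refine (norm_sum_le _ _).trans ?_
    refine (Finset.sum_le_sum fun s _ => h85_shf_norm s).trans ?_
    simp

theorem op_unique {G : Type} [AddCommGroup G] (S : Finset G) (V : G → ℝ) (T T' : l2 G →L[ℂ] l2 G)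
    (h : IsOp S V T) (h' : IsOp S V T') : T = T' := by
  ext ψ x
  rw [h ψ x, h' ψ x]

end DOS
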