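import Pool.Agent.Helper41.DOS.Base

/-!
# Block DOS-B4: two dimensional walks

Proof. On functions on `ℤ × ℤ` the operator `LG S2 (V ⊕ W)` is `A + B` with `A u (m,n) = u (m+1,n) + u (m-1,n) +
V m u (m,n)`, `B u (m,n) = u (m,n+1) + u (m,n-1) + W n u (m,n)` (linear maps). `A` and `B` commute (direct),
so `(A + B)^k = ∑ A^j B^(k-j) choose k j` (`Commute.add_pow`). On products `u ⊗ w`: `A (u ⊗ w) = (Lz V u) ⊗ w`,
`B (u ⊗ w) = u ⊗ (Lz W w)`, and `Pi.single (0,0) 1 = Pi.single 0 1 ⊗ Pi.single 0 1`.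
-/

namespace DOS

open FIB MeasureTheory Set Filter Topology

/-- the neighbours in `ℤ` -/
def S1 : Finset ℤ := {1, -1}

/-- the neighbours in `ℤ × ℤ` -/
def S2 : Finset (ℤ × ℤ) := {(1, 0), (-1, 0), (0, 1), (0, -1)}

theorem S1_symm : ∀ s ∈ S1, -s ∈ S1 := by
  decide

theorem S2_symm : ∀ s ∈ S2, -s ∈ S2 := by
  decide

theorem LG_one (V : ℤ → ℝ) (u : ℤ → ℝ) : LG S1 V u = Lz V u := by
  funext n
  rw [Lz_apply, LG, S1, Finset.sum_insert (by decide), Finset.sum_singleton, sub_eq_add_neg]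

/-- The first coordinate part. -/
def twoA (V : ℤ → ℝ) : Module.End ℝ (ℤ × ℤ → ℝ) where
  toFun u p := u (p.1 + 1, p.2) + u (p.1 - 1, p.2) + V p.1 * u p
  map_add' u w := by
    funext n
    simp only [Pi.add_apply]
    ring
  map_smul' c u := by
    funext n
    simp only [Pi.smul_apply, smul_eq_mul, RingHom.id_apply]
    ring

/-- The second coordinate part. -/
def twoB (W : ℤ → ℝ) : Module.End ℝ (ℤ × ℤ → ℝ) where
  toFun u p := u (p.1, p.2 + 1) + u (p.1, p.2 - 1) + W p.2 * u p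
  map_add' u w := by
    funext n
    simp only [Pi.add_apply]
    ring
  map_smul' c u := by
    funext n
    simp only [Pi.smul_apply, smul_eq_mul, RingHom.id_apply]
    ring

theorem twoA_apply (V : ℤ → ℝ) (u : ℤ × ℤ → ℝ) (p : ℤ × ℤ) :
    twoA V u p = u (p.1 + 1, p.2) + u (p.1 - 1, p.2) + V p.1 * u p := rfl

theorem twoB_apply (W : ℤ → ℝ) (u : ℤ × ℤ → ℝ) (p : ℤ × ℤ) :
    twoB W u p = u (p.1, p.2 + 1) + u (p.1, p.2 - 1) + W p.2 * u p := rfl

theorem two_comm (V W : ℤ → ℝ) : Commute (twoA V) (twoB W) := by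
  refine LinearMap.ext fun u => ?_
  funext p
  rw [Module.End.mul_apply, Module.End.mul_apply, twoA_apply, twoB_apply]
  simp only [twoA_apply, twoB_apply]
  ring

theorem LG_eq (V W : ℤ → ℝ) (u : ℤ × ℤ → ℝ) :
    LG S2 (fun p : ℤ × ℤ => V p.1 + W p.2) u = (twoA V + twoB W) u := by
  funext p
  rw [LinearMap.add_apply, Pi.add_apply, twoA_apply, twoB_apply, LG, S2,
    Finset.sum_insert (by decide), Finset.sum_insert (by decide), Finset.sum_insert (by decide),
    Finset.sum_singleton]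
  obtain ⟨m, n⟩ := p
  simp only [Prod.mk_add_mk, add_zero, sub_eq_add_neg]
  ring

theorem LG_iter (V W : ℤ → ℝ) (k : ℕ) (u : ℤ × ℤ → ℝ) :
    (LG S2 (fun p : ℤ × ℤ => V p.1 + W p.2))^[k] u = ((twoA V + twoB W) ^ k) u := by
  have h : LG S2 (fun p : ℤ × ℤ => V p.1 + W p.2) = ⇑(twoA V + twoB W) := by
    funext u
    exact LG_eq V W u
  rw [h, Module.End.pow_apply]

/-- Products of functions of one variable. -/
def tens (u w : ℤ → ℝ) : ℤ × ℤ → ℝ := fun p => u p.1 * w p.2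

theorem twoA_tens (V : ℤ → ℝ) (u w : ℤ → ℝ) : twoA V (tens u w) = tens (Lz V u) w := by
  funext p
  rw [twoA_apply]
  simp only [tens, Lz_apply]
  ring

theorem twoB_tens (W : ℤ → ℝ) (u w : ℤ → ℝ) : twoB W (tens u w) = tens u (Lz W w) := by
  funext p
  rw [twoB_apply]
  simp only [tens, Lz_apply]
  ring

theorem twoA_pow (V : ℤ → ℝ) (j : ℕ) (u w : ℤ → ℝ) :
    (twoA V ^ j) (tens u w) = tens ((Lz V)^[j] u) w := by
  induction j generalizing u with
  | zero => rfl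
  | succ j ih =>
    rw [pow_succ, Module.End.mul_apply, twoA_tens, ih, Function.iterate_succ_apply]

theorem twoB_pow (W : ℤ → ℝ) (j : ℕ) (u w : ℤ → ℝ) :
    (twoB W ^ j) (tens u w) = tens u ((Lz W)^[j] w) := by
  induction j generalizing w with
  | zero => rfl
  | succ j ih =>
    rw [pow_succ, Module.End.mul_apply, twoB_tens, ih, Function.iterate_succ_apply]

theorem single_tens : (Pi.single (0 : ℤ × ℤ) (1 : ℝ) : ℤ × ℤ → ℝ) =
    tens (Pi.single 0 1) (Pi.single 0 1) := by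
  funext p
  obtain ⟨m, n⟩ := p
  simp only [tens, Pi.single_apply, Prod.mk_eq_zero]
  by_cases hm : m = 0 <;> by_cases hn : n = 0 <;> simp [hm, hn]

theorem LG_two (V W : ℤ → ℝ) (k : ℕ) :
    ((LG S2 (fun p : ℤ × ℤ => V p.1 + W p.2))^[k] (Pi.single 0 1)) 0 =
      ∑ j ∈ Finset.range (k + 1), (((Lz V)^[j] (Pi.single 0 1)) 0) *
        (((Lz W)^[k - j] (Pi.single 0 1)) 0) * (k.choose j : ℝ) := by
  rw [LG_iter, (two_comm V W).add_pow, LinearMap.sum_apply, Finset.sum_apply]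
  refine Finset.sum_congr rfl fun j _ => ?_
  rw [← Nat.cast_comm, ← nsmul_eq_mul, LinearMap.smul_apply, Module.End.mul_apply, single_tens,
    twoB_pow, twoA_pow, Pi.smul_apply, nsmul_eq_mul, mul_comm]
  rfl

end DOS
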