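import Pool.Agent.Helper75.FIB.DosStubs
import Pool.Agent.Helper41.DOS.Op
import Pool.Agent.Helper41.DOS.Mat
import Pool.Agent.Helper41.DOS.Calc
import Pool.Agent.Helper41.DOS.Two
import Pool.Agent.Helper41.DOS.Conv
import Pool.Agent.Helper41.DOS.Approx
import Pool.Agent.Helper41.DOS.Gfun

/-!
# DOS: existence, uniqueness and convolution structure of the density of states measure

For all couplings.
-/

namespace DOS

open MeasureTheory Set Filter Topology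

/-! ### One dimension -/

theorem exists_op1 (l ω : ℝ) : ∃ T : l2 ℤ →L[ℂ] l2 ℤ, IsSelfAdjoint T ∧ ‖T‖ ≤ 2 + |l| ∧
    IsOp S1 (FIB.pot l ω) T := by
  obtain ⟨T, h1, h2, h3⟩ := exists_op S1 S1_symm (FIB.pot l ω) |l| (abs_nonneg l) (pot_abs l ω)
  refine ⟨T, h1, h2.trans (le_of_eq ?_), h3⟩
  have : S1.card = 2 := by decide
  rw [this]
  norm_num

theorem inner_op1 (l ω : ℝ) (T : l2 ℤ →L[ℂ] l2 ℤ) (h : IsOp S1 (FIB.pot l ω) T) (k : ℕ) :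
    (inner ℂ (lp.single (E := fun _ : ℤ => ℂ) 2 (0 : ℤ) (1 : ℂ))
        ((T ^ k) (lp.single (E := fun _ : ℤ => ℂ) 2 (0 : ℤ) (1 : ℂ)))).re = Gk l k ω := by
  rw [inner_pow S1 (FIB.pot l ω) T h k, Complex.ofReal_re]
  have : LG S1 (FIB.pot l ω) = FIB.Hf l ω := by
    funext u
    rw [LG_one]
    rfl
  rw [this]
  rfl

theorem norm_delta {G : Type} [AddCommGroup G] [DecidableEq G] :
    ‖(lp.single (E := fun _ : G => ℂ) 2 (0 : G) (1 : ℂ) : l2 G)‖ = 1 := by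
  rw [lp.norm_single (by norm_num)]
  simp

/-- the probability measure of the unit interval -/
noncomputable abbrev P1 : Measure ℝ := volume.restrict (Ioc (0 : ℝ) 1)

instance : IsProbabilityMeasure P1 := by
  constructor
  simp [P1]

/-- One dimensional density of states, in terms of moments. -/
theorem dos1 (l : ℝ) : ∃ μ : Measure ℝ, IsProbabilityMeasure μ ∧
    μ (Icc (-(2 + |l|)) (2 + |l|))ᶜ = 0 ∧ ∀ k : ℕ, ∫ x, x ^ k ∂μ = FIB.mom l k := by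
  choose T hT1 hT2 hT3 using fun ω => exists_op1 l ω
  obtain ⟨ν, h1, h2, h3⟩ := exists_dos P1 (lp.single (E := fun _ : ℤ => ℂ) 2 (0 : ℤ) (1 : ℂ) : l2 ℤ)
    norm_delta T hT1 (2 + |l|) hT2 (fun k => by
      have : (fun ω => (inner ℂ (lp.single (E := fun _ : ℤ => ℂ) 2 (0 : ℤ) (1 : ℂ))
        ((T ω ^ k) (lp.single (E := fun _ : ℤ => ℂ) 2 (0 : ℤ) (1 : ℂ)))).re) = Gk l k := by
        funext ω
        exact inner_op1 l ω _ (hT3 ω) k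
      rw [this]
      exact Gk_meas l k)
  refine ⟨ν, h1, h2, fun k => ?_⟩
  rw [h3 k, mom_eq, intervalIntegral.integral_of_le zero_le_one]
  refine integral_congr_ae (Filter.Eventually.of_forall fun ω => ?_)
  exact inner_op1 l ω _ (hT3 ω) k

/-! ### Two dimensions -/

/-- the potential in two dimensions -/
noncomputable def pot2 (l₁ l₂ : ℝ) (ω : ℝ × ℝ) : ℤ × ℤ → ℝ :=
  fun p => FIB.pot l₁ ω.1 p.1 + FIB.pot l₂ ω.2 p.2

theorem isOp_iff (l₁ l₂ : ℝ) (ω : ℝ × ℝ) (T : FIB.L2Z2 →L[ℂ] FIB.L2Z2) :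
    IsOp (G := ℤ × ℤ) S2 (pot2 l₁ l₂ ω) T ↔ FIB.IsSq l₁ l₂ ω.1 ω.2 T := by
  have key : ∀ (ψ : FIB.L2Z2) (m n : ℤ), ∑ s ∈ S2, (ψ : ℤ × ℤ → ℂ) ((m, n) + s) +
      ((pot2 l₁ l₂ ω (m, n) : ℝ) : ℂ) * ψ (m, n) =
      ψ (m + 1, n) + ψ (m - 1, n) + ψ (m, n + 1) + ψ (m, n - 1)
      + ((FIB.pot l₁ ω.1 m + FIB.pot l₂ ω.2 n : ℝ) : ℂ) * ψ (m, n) := by
    intro ψ m n
    rw [S2, Finset.sum_insert (by decide), Finset.sum_insert (by decide),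
      Finset.sum_insert (by decide), Finset.sum_singleton]
    simp only [Prod.mk_add_mk, add_zero, ← sub_eq_add_neg, pot2]
    ring
  constructor
  · intro h ψ m n
    rw [← key]
    exact h ψ (m, n)
  · rintro h ψ ⟨m, n⟩
    rw [key]
    exact h ψ m n

theorem exists_op2 (l₁ l₂ : ℝ) (ω : ℝ × ℝ) : ∃ T : FIB.L2Z2 →L[ℂ] FIB.L2Z2, IsSelfAdjoint T ∧
    ‖T‖ ≤ 4 + (|l₁| + |l₂|) ∧ IsOp (G := ℤ × ℤ) S2 (pot2 l₁ l₂ ω) T := by
  obtain ⟨T, h1, h2, h3⟩ := exists_op S2 S2_symm (pot2 l₁ l₂ ω) (|l₁| + |l₂|) (by positivity)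
    (fun p => (abs_add_le _ _).trans (add_le_add (pot_abs _ _ _) (pot_abs _ _ _)))
  refine ⟨T, h1, h2.trans (le_of_eq ?_), h3⟩
  have : S2.card = 4 := by decide
  rw [this]
  norm_num

/-- the moment integrand in two dimensions -/
noncomputable def G2 (l₁ l₂ : ℝ) (k : ℕ) (ω : ℝ × ℝ) : ℝ :=
  ∑ j ∈ Finset.range (k + 1), Gk l₁ j ω.1 * Gk l₂ (k - j) ω.2 * (k.choose j : ℝ)

theorem inner_op2 (l₁ l₂ : ℝ) (ω : ℝ × ℝ) (T : FIB.L2Z2 →L[ℂ] FIB.L2Z2)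
    (h : IsOp (G := ℤ × ℤ) S2 (pot2 l₁ l₂ ω) T) (k : ℕ) :
    (inner ℂ FIB.delta0 ((T ^ k) FIB.delta0)).re = G2 l₁ l₂ k ω := by
  have h1 := inner_pow S2 (pot2 l₁ l₂ ω) T h k
  have h2 := congrArg Complex.re h1
  rw [Complex.ofReal_re] at h2
  refine Eq.trans ?_ (h2.trans ?_)
  · rfl
  · exact LG_two (FIB.pot l₁ ω.1) (FIB.pot l₂ ω.2) k

theorem G2_meas (l₁ l₂ : ℝ) (k : ℕ) : Measurable (G2 l₁ l₂ k) := by
  unfold G2
  refine Finset.measurable_sum _ fun j _ => ?_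
  exact (((Gk_meas l₁ j).comp measurable_fst).mul ((Gk_meas l₂ (k - j)).comp measurable_snd)).mul_const _

/-- the probability measure of the unit square -/
noncomputable abbrev P2 : Measure (ℝ × ℝ) := volume.restrict (Ioc (0 : ℝ) 1 ×ˢ Ioc (0 : ℝ) 1)

theorem P2_eq : P2 = P1.prod P1 := by
  rw [P2, P1, Measure.prod_restrict, Measure.volume_eq_prod]

instance : IsProbabilityMeasure P2 := by
  rw [P2_eq]
  infer_instance

theorem Gk_integrable (l : ℝ) (k : ℕ) : Integrable (Gk l k) P1 :=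
  Integrable.of_bound (Gk_meas l k).aestronglyMeasurable ((2 + |l|) ^ k)
    (Filter.Eventually.of_forall fun ω => by rw [Real.norm_eq_abs]; exact Gk_bound l k ω)

theorem integral_G2 (l₁ l₂ : ℝ) (k : ℕ) : ∫ ω, G2 l₁ l₂ k ω ∂P2 =
    ∑ j ∈ Finset.range (k + 1), FIB.mom l₁ j * FIB.mom l₂ (k - j) * (k.choose j : ℝ) := by
  unfold G2
  rw [P2_eq, integral_finset_sum]
  · refine Finset.sum_congr rfl fun j _ => ?_
    rw [integral_mul_const, integral_prod_mul (Gk l₁ j) (Gk l₂ (k - j)), mom_eq, mom_eq,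
      intervalIntegral.integral_of_le zero_le_one, intervalIntegral.integral_of_le zero_le_one]
  · intro j _
    exact ((Gk_integrable l₁ j).mul_prod (Gk_integrable l₂ (k - j))).mul_const _

theorem norm_delta0 : ‖FIB.delta0‖ = 1 := norm_delta (G := ℤ × ℤ)

/-- **The density of states of the square operator is the convolution of the one dimensional ones.** -/
theorem dos_conv (l₁ l₂ : ℝ) (μ₁ μ₂ : Measure ℝ) [IsProbabilityMeasure μ₁] [IsProbabilityMeasure μ₂]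
    (a b : ℝ) (h₁ : μ₁ (Icc (-a) a)ᶜ = 0) (h₂ : μ₂ (Icc (-b) b)ᶜ = 0)
    (m₁ : ∀ k : ℕ, ∫ x, x ^ k ∂μ₁ = FIB.mom l₁ k) (m₂ : ∀ k : ℕ, ∫ x, x ^ k ∂μ₂ = FIB.mom l₂ k) :
    FIB.IsDOS l₁ l₂ (μ₁.conv μ₂) := by
  obtain ⟨hp, hs⟩ := conv_supp μ₁ μ₂ a b h₁ h₂
  choose T hT1 hT2 hT3 using fun ω => exists_op2 l₁ l₂ ω
  refine ⟨hp, fun ω₁ ω₂ => T (ω₁, ω₂), fun ω₁ ω₂ =>
    ⟨hT1 _, (isOp_iff l₁ l₂ (ω₁, ω₂) _).1 (hT3 _)⟩, fun g hg => ?_⟩
  set R := max (a + b) (4 + (|l₁| + |l₂|)) with hR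
  have hs' : (μ₁.conv μ₂) (Icc (-R) R)ᶜ = 0 := by
    refine measure_mono_null (compl_subset_compl.2 ?_) hs
    exact Icc_subset_Icc (neg_le_neg (le_max_left _ _)) (le_max_left _ _)
  have hG : ∀ k : ℕ, (fun ω => (inner ℂ FIB.delta0 ((T ω ^ k) FIB.delta0)).re) = G2 l₁ l₂ k := by
    intro k
    funext ω
    exact inner_op2 l₁ l₂ ω _ (hT3 ω) k
  have := integral_calc P2 FIB.delta0 norm_delta0 T hT1 R (fun ω => (hT2 ω).trans (le_max_right _ _))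
    (fun k => by rw [hG k]; exact G2_meas l₁ l₂ k) (μ₁.conv μ₂) hs' (fun k => by
      rw [conv_moments μ₁ μ₂ a b h₁ h₂ k, hG k, integral_G2]
      refine Finset.sum_congr rfl fun j _ => ?_
      rw [m₁, m₂]) g hg
  exact ⟨this.1, this.2.1, this.2.2⟩

/-- Uniqueness. -/
theorem dos_unique (l₁ l₂ : ℝ) (ν ν' : Measure ℝ) (h : FIB.IsDOS l₁ l₂ ν)
    (h' : FIB.IsDOS l₁ l₂ ν') : ν = ν' := by
  obtain ⟨hp, T, hT, hg⟩ := h
  obtain ⟨hp', T', hT', hg'⟩ := h'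
  have hTT : T = T' := by
    funext ω₁ ω₂
    exact op_unique (G := ℤ × ℤ) S2 (pot2 l₁ l₂ (ω₁, ω₂)) _ _
      ((isOp_iff l₁ l₂ (ω₁, ω₂) _).2 (hT ω₁ ω₂).2) ((isOp_iff l₁ l₂ (ω₁, ω₂) _).2 (hT' ω₁ ω₂).2)
  subst hTT
  refine ext_of_forall_integral_eq_of_IsFiniteMeasure fun f => ?_
  rw [(hg f f.continuous).2.2, (hg' f f.continuous).2.2]

/-- **Existence and uniqueness of the density of states measure, all couplings.** -/
theorem dos_exists_unique : FIB.DosExists := by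
  intro l₁ l₂
  obtain ⟨μ₁, p₁, s₁, m₁⟩ := dos1 l₁
  obtain ⟨μ₂, p₂, s₂, m₂⟩ := dos1 l₂
  exact ⟨μ₁.conv μ₂, dos_conv l₁ l₂ μ₁ μ₂ _ _ s₁ s₂ m₁ m₂, fun ν hν =>
    dos_unique l₁ l₂ _ _ hν (dos_conv l₁ l₂ μ₁ μ₂ _ _ s₁ s₂ m₁ m₂)⟩

theorem dos1_fib : FIB.Dos1 := by
  intro l hl hl2
  obtain ⟨μ, p, s, m⟩ := dos1 l
  refine ⟨μ, p, measure_mono_null (compl_subset_compl.2 ?_) s, m⟩
  rw [abs_of_pos hl]
  exact Icc_subset_Icc (by linarith) (by linarith)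

theorem dosConv_fib : FIB.DosConv := by
  intro l _ _ μ p s m
  exact dos_conv l l μ μ 3 3 s s m m

/-- Assembly of the final statement. -/
theorem final_of (hC : ∃ l0 : ℝ, 0 < l0 ∧ l0 ≤ 1 / 8 ∧ ∀ μ : ℝ → Measure ℝ,
      (∀ l ∈ Ioo 0 l0, IsProbabilityMeasure (μ l) ∧ μ l (Icc (-3) 3)ᶜ = 0 ∧
        ∀ k : ℕ, ∫ x, x ^ k ∂(μ l) = FIB.mom l k) →
      ∀ᵐ l ∂(volume.restrict (Ioo 0 l0)), (μ l).conv (μ l) ≪ volume) : FIB.Final := by
  obtain ⟨l0, h0, h8, hC⟩ := hC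
  choose μ p s m using dos1
  refine ⟨l0, h0, ?_⟩
  have hμ : ∀ l ∈ Ioo 0 l0, IsProbabilityMeasure (μ l) ∧ μ l (Icc (-3) 3)ᶜ = 0 ∧
        ∀ k : ℕ, ∫ x, x ^ k ∂(μ l) = FIB.mom l k := by
    intro l hl
    refine ⟨p l, measure_mono_null (compl_subset_compl.2 ?_) (s l), m l⟩
    rw [abs_of_pos hl.1]
    exact Icc_subset_Icc (by linarith [hl.2]) (by linarith [hl.2])
  filter_upwards [hC μ hμ, ae_restrict_mem measurableSet_Ioo] with l hl hl2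
  have := p l
  refine ⟨(μ l).conv (μ l), dos_conv l l _ _ _ _ (s l) (s l) (m l) (m l), fun ν' hν' => ?_, hl⟩
  exact dos_unique l l _ _ hν' (dos_conv l l _ _ _ _ (s l) (s l) (m l) (m l))

end DOS
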