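import Pool.Agent.Helper75.FIB.Basic
import Pool.Agent.Helper65.SF.A3
import Pool.Agent.Helper65.SF.A4
import Pool.Agent.Helper65.SF.A5

/-!
# DOS: moments of the laws of the approximants

Conversion of the results of `Helper65/SF` to the definitions of `Helper75/FIB`.
-/

namespace DOS

open MeasureTheory Set Filter Topology

theorem pot_conv (l ω : ℝ) (n : ℤ) : FIB.pot l ω n = SF.pot l ω n := by
  have h1 : Int.fract ((n : ℝ) * FIB.al + ω) < 1 := Int.fract_lt_one _
  unfold FIB.pot SF.pot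
  change l * Set.indicator (Set.Ico (1 - FIB.al) 1) (fun _ => (1 : ℝ))
    (Int.fract ((n : ℝ) * FIB.al + ω)) =
    if 1 - FIB.al ≤ Int.fract ((n : ℝ) * FIB.al + ω) then l else 0
  by_cases h : 1 - FIB.al ≤ Int.fract ((n : ℝ) * FIB.al + ω)
  · rw [if_pos h, Set.indicator_of_mem (Set.mem_Ico.2 ⟨h, h1⟩), mul_one]
  · rw [if_neg h, Set.indicator_of_notMem (fun h2 => h (Set.mem_Ico.1 h2).1), mul_zero]

theorem pot_conv' (l ω : ℝ) : FIB.pot l ω = SF.pot l ω := funext (pot_conv l ω)

theorem Hf_conv (l ω : ℝ) : FIB.Hf l ω = SF.op1 (SF.pot l ω) := by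
  funext u n
  unfold FIB.Hf SF.op1
  rw [pot_conv]

theorem mom_conv (l : ℝ) (k : ℕ) : FIB.mom l k = ∫ ω in (0 : ℝ)..1, SF.mom (SF.pot l ω) k 0 := by
  unfold FIB.mom SF.mom
  simp only [Hf_conv]

theorem MM_conv (K : ℕ) (E l : ℝ) : FIB.MM K E l = SF.eM l (-E) K := by
  have : FIB.MM K E l = SF.eM l (-E) K ∧ FIB.MM (K + 1) E l = SF.eM l (-E) (K + 1) := by
    induction K with
    | zero =>
      constructor
      · rfl
      · change !![E, -1; 1, 0] = !![- (-E), -1; 1, 0]
        rw [neg_neg]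
    | succ K ih =>
      refine ⟨ih.2, ?_⟩
      change FIB.MM K E l * FIB.MM (K + 1) E l = SF.eM l (-E) K * SF.eM l (-E) (K + 1)
      rw [ih.1, ih.2]
  exact this.1

/-- Uniform convergence of the normalised power sums of the Floquet eigenvalues. -/
theorem root_moments (l : ℝ) (k : ℕ) (ε : ℝ) (hε : 0 < ε) :
    ∀ᶠ K : ℕ in atTop, ∀ θ : ℝ, Real.sin θ ≠ 0 → ∀ e : Fin (Nat.fib K) → ℝ, Function.Injective e →
      (∀ j, FIB.tr K (e j) l = Real.cos θ) →
      |(∑ j, e j ^ k) / (Nat.fib K : ℝ) - FIB.mom l k| ≤ ε := by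
  have h1 := SF.mean_mom l k
  rw [← mom_conv] at h1
  have h2 := (Metric.tendsto_atTop.1 h1) ε hε
  obtain ⟨K0, hK0⟩ := h2
  have h3 : ∀ᶠ K : ℕ in atTop, K0 ≤ K := eventually_ge_atTop K0
  have h4 : ∀ᶠ K : ℕ in atTop, k + 5 < K := eventually_gt_atTop _
  filter_upwards [h3, h4] with K hK hK2 θ hθ e he htr
  have h5 : k < Nat.fib K := by
    have : K ≤ Nat.fib K := Nat.le_fib_self (by omega)
    omega
  have h6 : ∑ j, e j ^ k = ∑ i ∈ Finset.range (Nat.fib K),
      SF.mom (SF.per (Nat.fib K) (SF.pot l 0)) k ((i : ℤ) + 1) := by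
    rw [← SF.floquet_trace (Nat.fib K) (SF.pot l 0) θ hθ (fun j => - e j)
      (fun a b hab => he (neg_injective hab)) ?_ k h5]
    · exact Finset.sum_congr rfl fun j _ => by rw [neg_neg]
    · intro j
      rw [SF.tprod_fib l (- e j) K (by omega), ← MM_conv, FIB.MM_trace, htr]
  have h7 := hK0 K hK
  rw [Real.dist_eq, ← h6] at h7
  rw [div_eq_inv_mul, ← one_div]
  exact h7.le

/-- The moments of the laws of quantile functions of the approximants. -/
theorem moments_lim_of (l : ℝ) (q : ℕ → ℝ → ℝ) (R : ℝ)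
    (hm : ∀ᶠ K : ℕ in atTop, AEStronglyMeasurable (q K) (volume.restrict (Ioo (0 : ℝ) 1)))
    (hb : ∀ᶠ K : ℕ in atTop, ∀ t ∈ Ioo (0 : ℝ) 1, |q K t| ≤ R)
    (hq : ∀ᶠ K : ℕ in atTop, ∀ t ∈ Ioo (0 : ℝ) 1, (∀ j : ℤ, (Nat.fib K : ℝ) * t ≠ j) →
      FIB.tr K (q K t) l = Real.cos (Real.pi * Nat.fib K * t))
    (hi : ∀ᶠ K : ℕ in atTop, ∀ t ∈ Ioo (0 : ℝ) 1, ∀ t' ∈ Ioo (0 : ℝ) 1, q K t = q K t' → t = t')
    (k : ℕ) :
    Tendsto (fun K : ℕ => ∫ t in (0 : ℝ)..1, (q K t) ^ k) atTop (𝓝 (FIB.mom l k)) := by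
  rw [Metric.tendsto_nhds]
  intro ε hε
  filter_upwards [hm, hb, hq, hi, root_moments l k (ε / 2) (by linarith), eventually_ge_atTop 5]
    with K hm hb hq hi hr hK5
  have hN : 0 < Nat.fib K := Nat.fib_pos.2 (by omega)
  have hNr : (0 : ℝ) < Nat.fib K := by exact_mod_cast hN
  set N := Nat.fib K with hNdef
  -- the integrand
  have hint : IntervalIntegrable (fun t => (q K t) ^ k) volume 0 1 := by
    rw [intervalIntegrable_iff_integrableOn_Ioo_of_le zero_le_one]
    refine Integrable.of_bound (hm.pow k) (R ^ k) ?_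
    refine (ae_restrict_iff' measurableSet_Ioo).2 (Filter.Eventually.of_forall fun t ht => ?_)
    rw [norm_pow, Real.norm_eq_abs]
    exact pow_le_pow_left₀ (abs_nonneg _) (hb t ht) k
  -- the points
  let σ : ℕ → ℝ → ℝ := fun j s => if j % 2 = 0 then s else 1 - s
  have hσ : ∀ j s, s ∈ Ioo (0 : ℝ) 1 → σ j s ∈ Ioo (0 : ℝ) 1 := by
    intro j s hs
    simp only [σ]
    split_ifs
    · exact hs
    · exact ⟨by linarith [hs.2], by linarith [hs.1]⟩
  have hpt : ∀ j : ℕ, j < N → ∀ s ∈ Ioo (0 : ℝ) 1, ((j : ℝ) + σ j s) / N ∈ Ioo (0 : ℝ) 1 := by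
    intro j hj s hs
    have h1 := hσ j s hs
    have h2 : (j : ℝ) + 1 ≤ N := by exact_mod_cast hj
    constructor
    · have : (0 : ℝ) ≤ j := Nat.cast_nonneg j
      have := h1.1
      positivity
    · rw [div_lt_one hNr]
      linarith [h1.2]
  have hcell : ∫ t in (0 : ℝ)..1, (q K t) ^ k =
      ∑ j ∈ Finset.range N, ∫ t in ((j : ℝ) / N)..((j + 1 : ℕ) : ℝ) / N, (q K t) ^ k := by
    rw [intervalIntegral.sum_integral_adjacent_intervals (a := fun j : ℕ => (j : ℝ) / N)]
    · congr 1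
      · simp
      · rw [div_self hNr.ne']
    · intro j hj
      refine hint.mono_set ?_
      rw [uIcc_of_le zero_le_one, uIcc_of_le (by gcongr; omega)]
      intro x hx
      refine ⟨le_trans (by positivity) hx.1, le_trans hx.2 ?_⟩
      rw [div_le_one hNr]
      exact_mod_cast hj
  have hsub : ∀ j : ℕ, ∫ t in ((j : ℝ) / N)..((j + 1 : ℕ) : ℝ) / N, (q K t) ^ k =
      (∫ s in (0 : ℝ)..1, (q K (((j : ℝ) + σ j s) / N)) ^ k) / N := by
    intro j
    have e1 : ∫ s in (0 : ℝ)..1, (q K (((j : ℝ) + s) / N)) ^ k =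
        N * ∫ t in ((j : ℝ) / N)..((j + 1 : ℕ) : ℝ) / N, (q K t) ^ k := by
      have := intervalIntegral.integral_comp_div_add (fun t => (q K t) ^ k) hNr.ne' ((j : ℝ) / N)
        (a := 0) (b := 1)
      simp only [zero_div, zero_add, smul_eq_mul] at this
      rw [show (1 : ℝ) / N + j / N = ((j + 1 : ℕ) : ℝ) / N by push_cast; ring] at this
      rw [← this]
      refine intervalIntegral.integral_congr fun s _ => ?_
      change (q K (((j : ℝ) + s) / N)) ^ k = (q K (s / N + j / N)) ^ k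
      congr 2
      ring
    have e2 : ∫ s in (0 : ℝ)..1, (q K (((j : ℝ) + σ j s) / N)) ^ k =
        ∫ s in (0 : ℝ)..1, (q K (((j : ℝ) + s) / N)) ^ k := by
      simp only [σ]
      split_ifs
      · rfl
      · have := intervalIntegral.integral_comp_sub_left (a := 0) (b := 1)
          (fun s => (q K (((j : ℝ) + s) / N)) ^ k) 1
        rw [this]
        simp
    rw [e2, e1, mul_div_cancel_left₀ _ hNr.ne']
  have hintj : ∀ j : ℕ, j < N →
      IntervalIntegrable (fun s => (q K (((j : ℝ) + σ j s) / N)) ^ k) volume 0 1 := by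
    intro j hj
    have hcellj : IntervalIntegrable (fun t => (q K t) ^ k) volume ((j : ℝ) / N)
        (((j + 1 : ℕ) : ℝ) / N) := by
      refine hint.mono_set ?_
      rw [uIcc_of_le zero_le_one, uIcc_of_le (by gcongr; omega)]
      intro x hx
      refine ⟨le_trans (by positivity) hx.1, le_trans hx.2 ?_⟩
      rw [div_le_one hNr]
      exact_mod_cast hj
    have h1 : IntervalIntegrable (fun s => (q K (((j : ℝ) + s) / N)) ^ k) volume 0 1 := by
      have h2 := (hcellj.comp_mul_right (c := (N : ℝ)⁻¹)).comp_add_left (j : ℝ)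
      have e1 : (j : ℝ) / N / (N : ℝ)⁻¹ - j = 0 := by
        field_simp
        ring
      have e2 : ((j + 1 : ℕ) : ℝ) / N / (N : ℝ)⁻¹ - j = 1 := by
        push_cast
        field_simp
        ring
      rw [e1, e2] at h2
      exact h2
    simp only [σ]
    by_cases hj2 : j % 2 = 0
    · simp only [hj2, if_true]
      exact h1
    · simp only [hj2, if_false]
      have h3 := (h1.comp_sub_left 1).symm
      rw [sub_self, sub_zero] at h3
      exact h3
  have hmain : ∫ t in (0 : ℝ)..1, (q K t) ^ k =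
      ∫ s in (0 : ℝ)..1, (∑ j : Fin N, (q K (((j : ℕ) + σ j s) / N)) ^ k) / N := by
    rw [hcell]
    simp only [hsub]
    rw [← Finset.sum_div, ← intervalIntegral.integral_finsetSum, ← intervalIntegral.integral_div]
    · refine intervalIntegral.integral_congr fun s _ => ?_
      change (∑ j ∈ Finset.range N, _) / _ = _
      rw [Finset.sum_range]
    · intro j hj
      exact hintj j (Finset.mem_range.1 hj)
  rw [hmain, Real.dist_eq]
  have hI : IntervalIntegrable
      (fun s => (∑ j : Fin N, (q K (((j : ℕ) + σ j s) / N)) ^ k) / N) volume 0 1 := by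
    refine IntervalIntegrable.div_const ?_ _
    have := IntervalIntegrable.sum (f := fun (j : Fin N) s => (q K (((j : ℕ) + σ j s) / N)) ^ k)
      Finset.univ (fun j _ => hintj j j.2)
    have e3 : (fun s => ∑ j : Fin N, (q K (((j : ℕ) + σ j s) / N)) ^ k) =
        ∑ j : Fin N, fun s => (q K (((j : ℕ) + σ j s) / N)) ^ k := by
      funext s
      rw [Finset.sum_apply]
    rw [e3]
    exact this
  have hconst : FIB.mom l k = ∫ s in (0 : ℝ)..1, FIB.mom l k := by simp
  rw [hconst, ← intervalIntegral.integral_sub hI (by simp)]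
  have hfin : ‖∫ s in (0 : ℝ)..1, ((∑ j : Fin N, (q K (((j : ℕ) + σ j s) / N)) ^ k) / N
      - FIB.mom l k)‖ ≤ ε / 2 * |(1 : ℝ) - 0| := by
    apply intervalIntegral.norm_integral_le_of_norm_le_const_ae
    have h1 : ∀ᵐ s : ℝ, s ≠ 1 := by
      rw [ae_iff]
      simp
    filter_upwards [h1] with s hs1 hs
    rw [uIoc_of_le zero_le_one] at hs
    have hs' : s ∈ Ioo (0 : ℝ) 1 := ⟨hs.1, lt_of_le_of_ne hs.2 hs1⟩
    rw [Real.norm_eq_abs]
    have hsin : Real.sin (Real.pi * s) ≠ 0 := by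
      have := Real.sin_pos_of_pos_of_lt_pi (x := Real.pi * s) (by have := Real.pi_pos; have := hs'.1; positivity)
        (by have := Real.pi_pos; nlinarith [hs'.2])
      exact this.ne'
    refine hr (Real.pi * s) hsin (fun j => q K (((j : ℕ) + σ j s) / N)) ?_ ?_
    · intro a b hab
      have h2 := hi _ (hpt a a.2 s hs') _ (hpt b b.2 s hs') hab
      rw [div_left_inj' hNr.ne'] at h2
      have h3 := hσ a s hs'
      have h4 := hσ b s hs'
      apply Fin.ext
      have h5 : ((a : ℕ) : ℝ) < (b : ℕ) + 1 := by linarith [h3.1, h4.2]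
      have h6 : ((b : ℕ) : ℝ) < (a : ℕ) + 1 := by linarith [h3.2, h4.1]
      have h7 : (a : ℕ) < (b : ℕ) + 1 := by exact_mod_cast h5
      have h8 : (b : ℕ) < (a : ℕ) + 1 := by exact_mod_cast h6
      omega
    · intro j
      have h3 := hσ j s hs'
      have e0 : (N : ℝ) * ((((j : ℕ) : ℝ) + σ j s) / N) = ((j : ℕ) : ℝ) + σ j s := by
        field_simp
      rw [hq _ (hpt j j.2 s hs') ?_]
      · rw [mul_assoc, e0]
        simp only [σ]
        split_ifs with hpar
        · obtain ⟨m, hm2⟩ := Nat.even_iff.2 hpar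
          have : Real.pi * (((j : ℕ) : ℝ) + s) = Real.pi * s + (m : ℝ) * (2 * Real.pi) := by
            rw [hm2]; push_cast; ring
          rw [this, Real.cos_add_nat_mul_two_pi]
        · obtain ⟨m, hm2⟩ := Nat.odd_iff.2 (by omega : (j : ℕ) % 2 = 1)
          have : Real.pi * (((j : ℕ) : ℝ) + (1 - s)) = -(Real.pi * s) + ((m + 1 : ℕ) : ℝ) * (2 * Real.pi) := by
            rw [hm2]; push_cast; ring
          rw [this, Real.cos_add_nat_mul_two_pi, Real.cos_neg]
      · intro i hi2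
        rw [e0] at hi2
        have h5 : ((j : ℕ) : ℝ) < i := by linarith [h3.1]
        have h6 : (i : ℝ) < ((j : ℕ) : ℝ) + 1 := by linarith [h3.2]
        have h7 : ((j : ℕ) : ℤ) < i := by exact_mod_cast h5
        have h8 : i < ((j : ℕ) : ℤ) + 1 := by exact_mod_cast h6
        omega
  rw [Real.norm_eq_abs] at hfin
  refine lt_of_le_of_lt hfin ?_
  rw [sub_zero, abs_one, mul_one]
  linarith

end DOS
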