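import Pool.Agent.Helper41.DOS.Base

/-!
# Block DOS-A2b: traces on quasi-periodic sequences

Proof. Let `Q = {u : ℤ → ℂ | ∀ n, u (n + N) = z u n}` (`z ≠ 0`), a submodule, invariant under `Lz V`. The
restriction to the sites `0, ..., N-1` is a linear equivalence `Q ≃ (Fin N → ℂ)` (inverse:
`u x = z ^ (x / N) * c (x % N)`), so `Q` has the basis `b i`, `i : Fin N`, with coordinates `u ↦ u i`,
and the trace of `(Lz V)^k` on `Q` is `∑ i, ((Lz V)^k (b i)) i` (`LinearMap.trace_eq_matrix_trace`,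
`LinearMap.toMatrix_apply`). Locality: if `u = w` on `[n - k, n + k]` then `(Lz V)^k u n = (Lz V)^k w n`
(induction on `k`). As `k < N`, `b i` agrees with `Pi.single i 1` on `[i - k, i + k]`, so the trace is
`∑ i, ((Lz V)^k (Pi.single i 1)) i`. On the other hand the `u j` are eigenvectors for distinct
eigenvalues, hence linearly independent (`Module.End.eigenvectors_linearIndependent'`), hence a basis
of `Q` (`basisOfLinearIndependentOfCardEqFinrank`), in which the trace is `∑ j, (e j)^k`.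
-/

namespace DOS

open FIB MeasureTheory Set Filter Topology

theorem Lz_local {R : Type} [CommRing R] (V W : ℤ → R) (k : ℕ) (n : ℤ) (u w : ℤ → R)
    (hVW : ∀ m, n - k ≤ m → m ≤ n + k → V m = W m)
    (h : ∀ m, n - k ≤ m → m ≤ n + k → u m = w m) :
    ((Lz V)^[k] u) n = ((Lz W)^[k] w) n := by
  induction k generalizing n with
  | zero => exact h n (by simp) (by simp)
  | succ k ih =>
    rw [Function.iterate_succ_apply', Function.iterate_succ_apply', Lz_apply, Lz_apply]
    push_cast at hVW h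
    rw [ih (n + 1) (fun m h1 h2 => hVW m (by linarith) (by linarith))
        (fun m h1 h2 => h m (by linarith) (by linarith)),
      ih (n - 1) (fun m h1 h2 => hVW m (by linarith) (by linarith))
        (fun m h1 h2 => h m (by linarith) (by linarith)),
      ih n (fun m h1 h2 => hVW m (by linarith) (by linarith))
        (fun m h1 h2 => h m (by linarith) (by linarith)),
      hVW n (by linarith [Int.natCast_nonneg k]) (by linarith [Int.natCast_nonneg k])]

/-- quasi-periodic sequences -/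
noncomputable def Qs (N : ℕ) (z : ℂ) : Submodule ℂ (ℤ → ℂ) where
  carrier := {u | ∀ n, u (n + N) = z * u n}
  add_mem' := by
    intro u w hu hw n
    simp only [Pi.add_apply, hu n, hw n]
    ring
  zero_mem' := by
    intro n
    simp
  smul_mem' := by
    intro c u hu n
    simp only [Pi.smul_apply, smul_eq_mul, hu n]
    ring

theorem Qs_inv (N : ℕ) (z : ℂ) (V : ℤ → ℂ) (hV : ∀ n, V (n + N) = V n) (u : ℤ → ℂ)
    (hu : u ∈ Qs N z) : Lz V u ∈ Qs N z := by
  intro n
  have hu' : ∀ n, u (n + N) = z * u n := hu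
  rw [Lz_apply, Lz_apply, hV n, hu' n,
    show n + (N : ℤ) + 1 = (n + 1) + N by ring, show n + (N : ℤ) - 1 = (n - 1) + N by ring,
    hu' (n + 1), hu' (n - 1)]
  ring

/-- restriction to the sites `0, ..., N-1` -/
noncomputable def evQ (N : ℕ) (z : ℂ) : Qs N z →ₗ[ℂ] (Fin N → ℂ) where
  toFun u i := (u : ℤ → ℂ) ((i : ℕ) : ℤ)
  map_add' u w := by
    funext i
    simp
  map_smul' c u := by
    funext i
    simp

theorem Qs_zpow (N : ℕ) (z : ℂ) (hz : z ≠ 0) (u : ℤ → ℂ) (hu : u ∈ Qs N z) (q r : ℤ) :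
    u (r + N * q) = z ^ q * u r := by
  have hu' : ∀ n, u (n + N) = z * u n := hu
  induction q using Int.induction_on with
  | zero => simp
  | succ q ih =>
    rw [show r + (N : ℤ) * ((q : ℤ) + 1) = (r + N * q) + N by ring, hu', ih, zpow_add₀ hz, zpow_one]
    ring
  | pred q ih =>
    have h1 := hu' (r + N * (-(q : ℤ) - 1))
    rw [show r + (N : ℤ) * (-(q : ℤ) - 1) + N = r + N * (-(q : ℤ)) by ring, ih] at h1
    rw [zpow_sub₀ hz, zpow_one]
    field_simp
    rw [mul_comm] at h1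
    rw [mul_comm (u _) z, ← h1]
    ring

theorem evQ_injective (N : ℕ) (hN : 0 < N) (z : ℂ) (hz : z ≠ 0) : Function.Injective (evQ N z) := by
  rw [← LinearMap.ker_eq_bot, LinearMap.ker_eq_bot']
  intro u hu
  apply Subtype.ext
  funext x
  have hN' : (0 : ℤ) < N := by exact_mod_cast hN
  have h1 := Qs_zpow N z hz u u.2 (x / N) (x % N)
  rw [Int.emod_add_mul_ediv] at h1
  rw [h1]
  have h2 : (0 : ℤ) ≤ x % N := Int.emod_nonneg _ hN'.ne'
  have h3 : x % N < N := Int.emod_lt_of_pos _ hN'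
  obtain ⟨m, hm⟩ := Int.eq_ofNat_of_zero_le h2
  have h4 : m < N := by
    rw [hm] at h3
    exact_mod_cast h3
  have h5 := congrFun hu ⟨m, h4⟩
  simp only [evQ, LinearMap.coe_mk, AddHom.coe_mk, Pi.zero_apply] at h5
  rw [hm, h5]
  simp

/-- extension of a finite sequence -/
noncomputable def extQ (N : ℕ) (hN : 0 < N) (z : ℂ) (c : Fin N → ℂ) (x : ℤ) : ℂ :=
  z ^ (x / (N : ℤ)) * c ⟨(x % (N : ℤ)).toNat, by
    have hN' : (0 : ℤ) < N := by exact_mod_cast hN
    have h2 : (0 : ℤ) ≤ x % N := Int.emod_nonneg _ hN'.ne'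
    have h3 : x % N < N := Int.emod_lt_of_pos _ hN'
    omega⟩

theorem extQ_mem (N : ℕ) (hN : 0 < N) (z : ℂ) (hz : z ≠ 0) (c : Fin N → ℂ) :
    extQ N hN z c ∈ Qs N z := by
  intro n
  have hN' : (0 : ℤ) < N := by exact_mod_cast hN
  unfold extQ
  have h1 : (n + (N : ℤ)) / (N : ℤ) = n / N + 1 := by
    rw [Int.add_ediv_of_dvd_right (dvd_refl _), Int.ediv_self hN'.ne']
  have h2 : (n + (N : ℤ)) % (N : ℤ) = n % N := by simp
  simp only [h1, h2, zpow_add₀ hz, zpow_one]
  ring

theorem evQ_surjective (N : ℕ) (hN : 0 < N) (z : ℂ) (hz : z ≠ 0) : Function.Surjective (evQ N z) := by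
  intro c
  refine ⟨⟨extQ N hN z c, extQ_mem N hN z hz c⟩, ?_⟩
  funext i
  simp only [evQ, LinearMap.coe_mk, AddHom.coe_mk, extQ]
  have h1 : ((i : ℕ) : ℤ) / (N : ℤ) = 0 := Int.ediv_eq_zero_of_lt (by positivity) (by exact_mod_cast i.2)
  have h2 : ((i : ℕ) : ℤ) % (N : ℤ) = ((i : ℕ) : ℤ) :=
    Int.emod_eq_of_lt (by positivity) (by exact_mod_cast i.2)
  simp [h1, h2]

/-- the equivalence -/
noncomputable def eqQ (N : ℕ) (hN : 0 < N) (z : ℂ) (hz : z ≠ 0) : Qs N z ≃ₗ[ℂ] (Fin N → ℂ) :=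
  LinearEquiv.ofBijective (evQ N z) ⟨evQ_injective N hN z hz, evQ_surjective N hN z hz⟩

theorem eqQ_apply (N : ℕ) (hN : 0 < N) (z : ℂ) (hz : z ≠ 0) (u : Qs N z) (i : Fin N) :
    eqQ N hN z hz u i = (u : ℤ → ℂ) ((i : ℕ) : ℤ) := rfl

theorem Lz_cast (V : ℤ → ℝ) (k : ℕ) (u : ℤ → ℝ) :
    (Lz (fun n => (V n : ℂ)))^[k] (fun n => (u n : ℂ)) = fun n => ((((Lz V)^[k] u) n : ℝ) : ℂ) := by
  induction k with
  | zero => rfl
  | succ k ih =>
    rw [Function.iterate_succ_apply', Function.iterate_succ_apply', ih]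
    funext n
    rw [Lz_apply, Lz_apply]
    push_cast
    ring

theorem restrict_pow_coe (N : ℕ) (z : ℂ) (T : (ℤ → ℂ) →ₗ[ℂ] (ℤ → ℂ))
    (hT : ∀ u ∈ Qs N z, T u ∈ Qs N z) (k : ℕ) (u : Qs N z) :
    (((T.restrict hT) ^ k) u : ℤ → ℂ) = T^[k] (u : ℤ → ℂ) := by
  induction k with
  | zero => rfl
  | succ k ih =>
    rw [pow_succ', Module.End.mul_apply, LinearMap.coe_restrict_apply, ih,
      Function.iterate_succ_apply']

theorem sum_pow_eq (N : ℕ) (V : ℤ → ℝ) (hV : ∀ n, V (n + N) = V n) (z : ℂ) (hz : z ≠ 0)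
    (e : Fin N → ℝ) (he : Function.Injective e)
    (hu : ∀ j, ∃ u : ℤ → ℂ, u ≠ 0 ∧ (∀ n, u (n + N) = z * u n) ∧
      Lz (fun n => (V n : ℂ)) u = ((e j : ℝ) : ℂ) • u)
    (k : ℕ) (hk : k < N) :
    ∑ j, e j ^ k = ∑ i : Fin N, ((Lz V)^[k] (Pi.single ((i : ℕ) : ℤ) 1)) ((i : ℕ) : ℤ) := by
  classical
  have hN : 0 < N := by omega
  have hN' : (0 : ℤ) < N := by exact_mod_cast hN
  set VC : ℤ → ℂ := fun n => (V n : ℂ) with hVC
  have hVC' : ∀ n, VC (n + N) = VC n := fun n => by simp only [hVC, hV n]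
  set T : (ℤ → ℂ) →ₗ[ℂ] (ℤ → ℂ) := Lz VC with hTdef
  have hT : ∀ u ∈ Qs N z, T u ∈ Qs N z := fun u h => Qs_inv N z VC hVC' u h
  set TQ : Qs N z →ₗ[ℂ] Qs N z := T.restrict hT with hTQ
  -- first basis
  let b1 : Module.Basis (Fin N) ℂ (Qs N z) := Module.Basis.ofEquivFun (eqQ N hN z hz)
  have tr1 : LinearMap.trace ℂ (Qs N z) (TQ ^ k) =
      ∑ i : Fin N, (T^[k] (b1 i : ℤ → ℂ)) ((i : ℕ) : ℤ) := by
    rw [LinearMap.trace_eq_matrix_trace ℂ b1, Matrix.trace]
    refine Finset.sum_congr rfl fun i _ => ?_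
    rw [Matrix.diag_apply, LinearMap.toMatrix_apply, Module.Basis.ofEquivFun_repr_apply, eqQ_apply,
      restrict_pow_coe]
  have hb1 : ∀ i : Fin N, (b1 i : ℤ → ℂ) = extQ N hN z (Pi.single i 1) := by
    intro i
    have h1 : b1 i = (⟨extQ N hN z (Pi.single i 1), extQ_mem N hN z hz _⟩ : Qs N z) := by
      apply (eqQ N hN z hz).injective
      rw [Module.Basis.coe_ofEquivFun, LinearEquiv.apply_symm_apply]
      funext j
      rw [eqQ_apply]
      simp only [extQ]
      have h1 : ((j : ℕ) : ℤ) / (N : ℤ) = 0 :=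
        Int.ediv_eq_zero_of_lt (by positivity) (by exact_mod_cast j.2)
      have h2 : ((j : ℕ) : ℤ) % (N : ℤ) = ((j : ℕ) : ℤ) :=
        Int.emod_eq_of_lt (by positivity) (by exact_mod_cast j.2)
      simp [h1, h2]
    rw [h1]
  have key : ∀ i : Fin N, (T^[k] (b1 i : ℤ → ℂ)) ((i : ℕ) : ℤ) =
      ((((Lz V)^[k] (Pi.single ((i : ℕ) : ℤ) 1)) ((i : ℕ) : ℤ) : ℝ) : ℂ) := by
    intro i
    have h1 := congrFun (Lz_cast V k (Pi.single ((i : ℕ) : ℤ) 1)) ((i : ℕ) : ℤ)
    rw [← h1]
    apply Lz_local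
    · intro m _ _
      rfl
    · intro m hm1 hm2
      rw [hb1 i]
      by_cases hmi : m = ((i : ℕ) : ℤ)
      · subst hmi
        simp only [extQ]
        have h1 : ((i : ℕ) : ℤ) / (N : ℤ) = 0 :=
          Int.ediv_eq_zero_of_lt (by positivity) (by exact_mod_cast i.2)
        have h2 : ((i : ℕ) : ℤ) % (N : ℤ) = ((i : ℕ) : ℤ) :=
          Int.emod_eq_of_lt (by positivity) (by exact_mod_cast i.2)
        simp [h1, h2]
      · rw [Pi.single_eq_of_ne hmi]
        simp only [extQ]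
        rw [Pi.single_eq_of_ne]
        · simp
        · intro h3
          have h4 := congrArg Fin.val h3
          simp only at h4
          have h5 : (0 : ℤ) ≤ m % N := Int.emod_nonneg _ hN'.ne'
          have h6 : m % N = ((i : ℕ) : ℤ) := by
            rw [← h4]
            exact (Int.toNat_of_nonneg h5).symm
          have h7 : m = (i : ℕ) + (N : ℤ) * (m / N) := by
            rw [← h6, Int.emod_add_mul_ediv]
          set q := m / (N : ℤ) with hq
          have hk' : (k : ℤ) < N := by exact_mod_cast hk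
          have hq1 : q < 1 := by
            by_contra hcon
            push Not at hcon
            nlinarith
          have hq2 : -1 < q := by
            by_contra hcon
            push Not at hcon
            nlinarith
          have hq0 : q = 0 := by omega
          apply hmi
          rw [h7, hq0]
          ring
  -- second basis
  choose u hu0 hu1 hu2 using hu
  let v : Fin N → Qs N z := fun j => ⟨u j, hu1 j⟩
  have hev : ∀ j, Module.End.HasEigenvector TQ (((e j : ℝ) : ℂ)) (v j) := by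
    intro j
    rw [Module.End.hasEigenvector_iff, Module.End.mem_eigenspace_iff]
    refine ⟨?_, ?_⟩
    · apply Subtype.ext
      rw [hTQ, LinearMap.coe_restrict_apply]
      exact hu2 j
    · intro h
      exact hu0 j (congrArg Subtype.val h)
  have hli : LinearIndependent ℂ v :=
    Module.End.eigenvectors_linearIndependent' TQ (fun j => ((e j : ℝ) : ℂ))
      (fun a b hab => he (Complex.ofReal_injective hab)) v hev
  have : Nonempty (Fin N) := ⟨⟨0, hN⟩⟩
  have hcard : Fintype.card (Fin N) = Module.finrank ℂ (Qs N z) := by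
    rw [(eqQ N hN z hz).finrank_eq, Module.finrank_fin_fun, Fintype.card_fin]
  let b2 : Module.Basis (Fin N) ℂ (Qs N z) := basisOfLinearIndependentOfCardEqFinrank hli hcard
  have hb2 : ∀ j, b2 j = v j := fun j => by
    simp only [b2, coe_basisOfLinearIndependentOfCardEqFinrank]
  have hpow : ∀ j, (TQ ^ k) (v j) = (((e j : ℝ) : ℂ) ^ k) • v j := by
    intro j
    exact (hev j).pow_apply k
  have tr2 : LinearMap.trace ℂ (Qs N z) (TQ ^ k) = ∑ j : Fin N, ((e j : ℝ) : ℂ) ^ k := by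
    rw [LinearMap.trace_eq_matrix_trace ℂ b2, Matrix.trace]
    refine Finset.sum_congr rfl fun j _ => ?_
    rw [Matrix.diag_apply, LinearMap.toMatrix_apply, hb2, hpow, map_smul, ← hb2, Module.Basis.repr_self]
    simp
  have hfin : (∑ j : Fin N, ((e j : ℝ) : ℂ) ^ k) =
      ∑ i : Fin N, ((((Lz V)^[k] (Pi.single ((i : ℕ) : ℤ) 1)) ((i : ℕ) : ℤ) : ℝ) : ℂ) := by
    rw [← tr2, tr1]
    exact Finset.sum_congr rfl fun i _ => key i
  exact_mod_cast hfin

end DOS
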